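import Pool.Agent.H20.RD.Nea

/-! The toric variety, from a family over an extension field. -/

set_option autoImplicit false
set_option linter.unusedSectionVars false

namespace Pool.Agent.H20.RD

open MvPolynomial Pool.Agent.Y129.TA
open Pool.Agent.K7.H6.PT (IsIrr)
open Pool.Agent.H20.RG

/-- From the family to the toric variety. -/
theorem finish {K : Type} [Field K] [IsAlgClosed K] {ι : Type} [Fintype ι] [DecidableEq ι]
    {Z : Set (ι → K)}
    (hZ : IsClosedCone Z) {d : ℕ} (hd : DimLE Z d) {B : Finset ι} (hcard : d + 1 ≤ B.card)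
    (x₀ : ι → K) {k : ℕ} (hk : 0 < k) (M : ι → B → ℤ)
    (hMB : ∀ b b' : B, M b b' = if b = b' then (k : ℤ) else 0) (hx₀b : ∀ b : B, x₀ b ≠ 0)
    (hmemZ : ∀ v : Option B → K, (∀ o, v o ≠ 0) → par x₀ (coneExp M) v ∈ Z) :
    ∃ W ⊆ Z, IsIrr W ∧ IsToric W ∧ DimGE W d ∧ (IsIrr Z → W = Z) := by
  classical
  have : Infinite K := IsAlgClosed.instInfinite
  have hZne : Z.Nonempty := ⟨_, hmemZ (fun _ => 1) fun _ => one_ne_zero⟩
  have hrelZ : ∀ e : Option B → ι, ∃ R : MvPolynomial (Option B) K, R ≠ 0 ∧
      ∀ x ∈ Z, eval (fun o => x (e o)) R = 0 := fun e => by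
    refine exists_rel hZ hZne hd ?_ e
    rw [Nat.card_eq_fintype_card, Fintype.card_option, Fintype.card_coe]
    omega
  set I := parIdeal x₀ (coneExp M) with hI
  have hIpr : I.IsPrime := parIdeal_prime _ _
  have hZI : zeroLocus K I ⊆ Z := by
    obtain ⟨⟨J', hJ'⟩, -⟩ := hZ
    intro x hx
    rw [hJ', mem_zeroLocus_iff]
    intro q hq
    refine (mem_zeroLocus_iff.1 hx) q ?_
    intro v hv
    have h1 := hmemZ v hv
    rw [hJ', mem_zeroLocus_iff] at h1
    have h2 := h1 q hq
    rwa [aeval_eq_eval] at h2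
  have hconeW : ∀ a : K, ∀ y ∈ zeroLocus K I, a • y ∈ zeroLocus K I := fun a y hy =>
    zeroLocus_cone x₀ M a hy
  -- independence of the coordinates in `B`
  have hindI : Indep I (fun b : B => (b : ι)) := by
    intro r hr
    have h1 : r * ∏ b, X b = 0 := by
      refine MvPolynomial.funext fun v => ?_
      rw [map_zero, map_mul, map_prod]
      by_cases hv : ∀ b, v b ≠ 0
      · choose u hu using fun b : B => IsAlgClosed.exists_pow_nat_eq (v b / x₀ b) hk
        have hu0 : ∀ b, u b ≠ 0 := by
          intro b h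
          have h2 := hu b
          rw [h, zero_pow hk.ne'] at h2
          exact div_ne_zero (hv b) (hx₀b b) h2.symm
        have h2 := hr (fun o => o.elim 1 u) (by
          intro o
          cases o with
          | none => exact one_ne_zero
          | some t => exact hu0 t)
        rw [par_cone, eval_rename] at h2
        have h3 : ((Option.elim none 1 u • par x₀ M fun t => Option.elim (some t) 1 u) ∘
            fun b : B => (b : ι)) = v := by
          funext b
          change (1 : K) * par x₀ M u b = v b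
          unfold par
          have h4 : ∀ t : B, u t ^ M b t = if b = t then u t ^ k else 1 := by
            intro t
            rw [hMB]
            split_ifs
            · rw [zpow_natCast]
            · rw [zpow_zero]
          rw [Finset.prod_congr rfl fun t _ => h4 t, Finset.prod_ite_eq,
            if_pos (Finset.mem_univ _), hu, one_mul]
          have := hx₀b b
          field_simp
        rw [h3] at h2
        rw [h2, zero_mul]
      · push Not at hv
        obtain ⟨b, hb⟩ := hv
        rw [Finset.prod_eq_zero (Finset.mem_univ b) (by rw [eval_X, hb]), mul_zero]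
    exact (mul_eq_zero.1 h1).resolve_right (Finset.prod_ne_zero_iff.2 fun b _ => X_ne_zero b)
  refine ⟨zeroLocus K I, hZI, ⟨⟨⟨I, rfl⟩, hconeW⟩, ⟨_, par_mem x₀ (coneExp M)
    (u := fun _ => 1) fun _ => one_ne_zero⟩, fun f g hfg => ?_⟩, parIdeal_toric _ _, ?_, fun hirr => ?_⟩
  · rcases hIpr.mem_or_mem (mem_vanishing_zeroLocus I hfg) with h | h
    · exact Or.inl fun z hz => by
        have := (mem_zeroLocus_iff.1 hz) f h
        rwa [aeval_eq_eval] at this
    · exact Or.inr fun z hz => by
        have := (mem_zeroLocus_iff.1 hz) g h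
        rwa [aeval_eq_eval] at this
  · -- the dimension
    have hhom : ∀ f ∈ I, ∀ n, homogeneousComponent n f ∈ I := by
      intro f hf n
      refine mem_vanishing_zeroLocus I fun x hx => ?_
      rw [← aeval_eq_eval]
      exact Pool.Agent.R388.TP.component_zero hconeW (fun x hx => (mem_zeroLocus_iff.1 hx) f hf) n hx
    obtain ⟨emb⟩ : Nonempty (Fin (d + 1) ↪ B) :=
      Function.Embedding.nonempty_of_card_le (by rw [Fintype.card_fin, Fintype.card_coe]; exact hcard)
    exact Pool.Agent.R388.TP.dimGE_of_algInd hhom _ ((indep_iff.1 hindI).comp emb emb.injective)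
  · -- irreducible varieties
    let IZ : Ideal (MvPolynomial ι K) := vanishingIdeal K Z
    have hmemIZ : ∀ f, f ∈ IZ ↔ ∀ x ∈ Z, eval x f = 0 := by
      intro f
      rw [mem_vanishingIdeal_iff]
      exact forall₂_congr fun x _ => by rw [aeval_eq_eval]
    have hIZpr : IZ.IsPrime := by
      refine ⟨?_, fun {f g} hfg => ?_⟩
      · rw [Ideal.ne_top_iff_one, hmemIZ]
        intro h
        obtain ⟨x, hx⟩ := hZne
        have h1 := h x hx
        rw [map_one] at h1
        exact one_ne_zero h1
      · rw [hmemIZ] at hfg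
        rcases hirr.irr f g hfg with h | h
        · exact Or.inl ((hmemIZ f).2 h)
        · exact Or.inr ((hmemIZ g).2 h)
    have hle : IZ ≤ I := by
      intro f hf v hv
      exact (hmemIZ f).1 hf _ (hmemZ v hv)
    have hindZ : Indep IZ (fun b : B => (b : ι)) := fun r hr => hindI r (hle hr)
    have halgZ : AlgOver IZ (fun b : B => (b : ι)) := by
      refine algOver_of_dep IZ B hindZ fun j _ h => ?_
      obtain ⟨R, hR0, hR⟩ := hrelZ fun o => o.elim j fun b => (b : ι)
      refine hR0 (h R ?_)
      rw [hmemIZ]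
      intro x hx
      rw [eval_rename]
      exact hR x hx
    have heq : IZ = I := eq_of_indep halgZ hle hindI
    refine Set.Subset.antisymm hZI fun x hx => ?_
    rw [mem_zeroLocus_iff]
    intro q hq
    rw [← heq] at hq
    rw [aeval_eq_eval]
    exact (hmemIZ q).1 hq x hx


section Ext

variable {p : ℕ} [hp : Fact p.Prime] {K L F : Type} [Field K] [Field L] [Field F] [CharP F p]
  [IsAlgClosed K] [IsAlgClosed F] {ι : Type} [Fintype ι]

lemma eval_map_scale (φ : K →+* L) (x : ι → L) (c : ι → K) (q : MvPolynomial ι K) :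
    eval x (map φ (aeval (fun i => (X i * C (c i) : MvPolynomial ι K)) q)) =
      eval (fun i => x i * φ (c i)) (map φ q) := by
  have h1 : ((eval x).comp (map φ)).comp
      (aeval fun i => (X i * C (c i) : MvPolynomial ι K)).toRingHom =
      (eval fun i => x i * φ (c i)).comp (map φ) := by
    refine MvPolynomial.ringHom_ext (fun c => ?_) fun i => ?_
    · simp
    · simp
  exact congrArg (fun ψ : MvPolynomial ι K →+* L => ψ q) h1

/-- A closed cone over an extension which lies over a variety of the same dimension. -/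
theorem forward_ext (φ : K →+* L) (T : TiltPair p L F) (hA : NearAdd T) {Z : Set (ι → K)}
    (hZ : IsClosedCone Z) {d : ℕ} (hd : DimLE Z d) (hZne : Z.Nonempty) {Y : Set (ι → F)}
    (hY : IsClosedCone Y) (hYd : DimGE Y d)
    (hYZ : ∀ y ∈ Y, ∀ q : MvPolynomial ι K, (∀ x ∈ Z, eval x q = 0) →
      eval (fun i => T.sharp (y i)) (map φ q) = 0) :
    ∃ W ⊆ Z, IsIrr W ∧ IsToric W ∧ DimGE W d ∧ (IsIrr Z → W = Z) := by
  classical
  have : Infinite K := IsAlgClosed.instInfinite
  obtain ⟨⟨J, hJ⟩, hcone⟩ := hY
  have hcone' := hcone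
  rw [hJ] at hcone' hYd
  obtain ⟨P, hP, hJP, z, hz⟩ := Pool.Agent.R388.TP.exists_algInd hcone' hYd
  obtain ⟨B, hind, halg⟩ := exists_basis P
  have hcard : d + 1 ≤ B.card := card_basis P B halg hz
  have hPY : ∀ y : ι → F, (∀ q ∈ P, eval y q = 0) → y ∈ Y := by
    intro y hy
    rw [hJ, mem_zeroLocus_iff]
    intro q hq
    rw [aeval_eq_eval]
    exact hy q (hJP hq)
  -- the extension of `Z`
  let Z' : Set (ι → L) := {x | ∀ q : MvPolynomial ι K, (∀ x ∈ Z, eval x q = 0) →
    eval x (map φ q) = 0}
  have hrel : ∀ e : Option B → ι, ∃ R : MvPolynomial (Option B) L, R ≠ 0 ∧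
      ∀ x ∈ Z', eval (fun o => x (e o)) R = 0 := by
    intro e
    obtain ⟨R, hR0, hR⟩ := exists_rel hZ hZne hd (by
      rw [Nat.card_eq_fintype_card, Fintype.card_option, Fintype.card_coe]
      omega) e
    refine ⟨map φ R, fun h => hR0 (map_injective φ φ.injective (by rw [h, map_zero])),
      fun x hx => ?_⟩
    have h1 := hx (rename e R) fun x hx => by
      rw [eval_rename]
      exact hR x hx
    rw [map_rename, eval_rename] at h1
    exact h1
  obtain ⟨y₀, k, M, hk, hy₀, hMB, hpar⟩ := exists_par P B hind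
    (binomial_rel' T hA P B hind halg hrel fun y hy q hq => hYZ y (hPY y hy) q hq)
  have hBS : ∀ b : B, y₀ b ≠ 0 := by
    intro b hb
    have h1 := hind (X b) (by rw [rename_X]; exact (hy₀ b).1 hb)
    exact X_ne_zero b h1
  set x₀ : ι → L := fun i => T.sharp (y₀ i) with hx₀
  let ψ : MvPolynomial ι K →+* L := (eval x₀).comp (map φ)
  have hker : (RingHom.ker ψ).IsPrime := RingHom.ker_isPrime ψ
  let f : MvPolynomial ι K := ∏ i ∈ Finset.univ.filter (fun i => x₀ i ≠ 0), X i
  have hf : f ∉ RingHom.ker ψ := by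
    rw [RingHom.mem_ker]
    simp only [ψ, f, RingHom.comp_apply, map_prod, map_X, eval_X]
    exact Finset.prod_ne_zero_iff.2 fun i hi => (Finset.mem_filter.1 hi).2
  obtain ⟨x, hx, hxf⟩ : ∃ x ∈ zeroLocus K (RingHom.ker ψ), eval x f ≠ 0 := by
    by_contra hcon
    push Not at hcon
    exact hf (mem_vanishing_zeroLocus _ hcon)
  have hxb : ∀ b : B, x b ≠ 0 := by
    intro b hb
    apply hxf
    simp only [f, map_prod, eval_X]
    exact Finset.prod_eq_zero (i := (b : ι))
      (Finset.mem_filter.2 ⟨Finset.mem_univ _, T.sharp_ne (hBS b)⟩) hb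
  refine finish hZ hd hcard x hk M hMB hxb fun v hv => ?_
  obtain ⟨⟨J', hJ'⟩, hcZ⟩ := hZ
  rw [hJ', mem_zeroLocus_iff]
  intro q hq
  rw [aeval_eq_eval]
  have hqZ : ∀ x ∈ Z, eval x q = 0 := by
    intro x hx
    rw [hJ', mem_zeroLocus_iff] at hx
    have := hx q hq
    rwa [aeval_eq_eval] at this
  have h1 : aeval (fun i => (X i * C (∏ o, v o ^ coneExp M i o) : MvPolynomial ι K)) q ∈
      RingHom.ker ψ := by
    rw [RingHom.mem_ker]
    change eval x₀ (map φ _) = 0
    rw [eval_map_scale]
    choose u hu using fun o => T.surj (φ (v o))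
    have hu0 : ∀ o, u o ≠ 0 := by
      intro o h
      have h2 := hu o
      rw [h, T.sharp_zero] at h2
      exact hv o ((map_eq_zero φ).1 h2.symm)
    have h2 := hYZ _ (hcone (u none) _ (hPY _ (hpar (fun t => u (some t)) fun t => hu0 _))) q hqZ
    have h3 : (fun i => T.sharp ((u none • par y₀ M fun t => u (some t)) i)) =
        fun i => x₀ i * φ (∏ o, v o ^ coneExp M i o) := by
      rw [← par_cone]
      funext i
      unfold par
      rw [map_mul, map_prod, map_prod]
      congr 1
      refine Finset.prod_congr rfl fun o _ => ?_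
      rw [sharp_zpow, hu, map_zpow₀]
    rw [h3] at h2
    exact h2
  have h2 := (mem_zeroLocus_iff.1 hx) _ h1
  rw [aeval_eq_eval, eval_scale q fun i => ∏ o, v o ^ coneExp M i o] at h2
  exact h2

end Ext

end Pool.Agent.H20.RD
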