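import Pool.Agent.H20.RD.Hlc
import Pool.Agent.H20.RD.Fwd
import Pool.Agent.H20.RG.HullLim

/-! Approximations of bounded degree exist only for toric varieties. -/

set_option autoImplicit false
set_option linter.unusedSectionVars false

namespace Pool.Agent.H20.RD

open Filter Topology MvPolynomial Pool.Agent.Y129.TA
open Pool.Agent.K7.H6.PT (IsIrr)
open Pool.Agent.H20.RG

variable {p : ℕ} [hp : Fact p.Prime] {K F : Type} [Field K] [Field F] [CharP F p]
  [IsAlgClosed K] [IsAlgClosed F] {ι : Type} [Fintype ι]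

/-- The equation passes to the limit. -/
lemma limit_eq (T : TiltPair p K F) (hA : NearAdd T) {g : MvPolynomial ι K} {D : ℕ}
    {Y : ℕ → Set (ι → F)} (hY : ∀ m, ∀ y ∈ Y m, T.InTube g D (1 / ((m : ℝ) + 1)) y)
    (x : ι → Bd T.absF)
    (hx : ∀ᶠ m in (UF : Filter ℕ), (fun i => (x i : ℕ → F) m) ∈ Y m) :
    eval (fun i => (hullPair T hA).sharp (cl T.absF (x i))) (map (emb T.absK) g) = 0 := by
  choose B hB using fun i => (x i).2
  set B' : ℝ := 1 + ∑ i, |B i| with hB'
  have hBB : ∀ i m, T.absF ((x i : ℕ → F) m) ≤ B' := by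
    intro i m
    have h1 := Finset.single_le_sum (f := fun i => |B i|) (fun i _ => abs_nonneg _)
      (Finset.mem_univ i)
    have h2 := le_abs_self (B i)
    have h3 := hB i m
    linarith
  obtain ⟨t, ht1, ht2⟩ := eval_emb (a := T.absK) g (fun i => sharpBd T (x i))
  have h1 : (fun i => (hullPair T hA).sharp (cl T.absF (x i))) =
      fun i => cl T.absK (sharpBd T (x i)) := by
    funext i
    exact hsharp_cl T hA (x i)
  rw [h1, ← ht2, cl_eq_zero]
  refine lam_eq _ ?_
  have hsq : Tendsto (fun m : ℕ => 1 / ((m : ℝ) + 1) * B' ^ D) (UF : Filter ℕ) (𝓝 0) := by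
    have h2 : Tendsto (fun m : ℕ => 1 / ((m : ℝ) + 1) * B' ^ D) atTop (𝓝 (0 * B' ^ D)) :=
      (tendsto_one_div_add_atTop_nhds_zero_nat).mul_const _
    rw [zero_mul] at h2
    refine h2.mono_left ?_
    rw [← Nat.cofinite_eq_atTop]
    exact Filter.hyperfilter_le_cofinite
  refine squeeze_zero' (Filter.Eventually.of_forall fun m => T.absK.nonneg _) ?_ hsq
  filter_upwards [hx] with m hm
  rw [ht1 m]
  exact hY m _ hm B' (fun i => hBB i m)

/-- For some `N` the preimage of every neighbourhood of `Z` contains a closed set of dimension at least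
`d` which is defined by forms of degree at most `N`. -/
def ApproxBounded (T : TiltPair p K F) (Z : Set (ι → K)) (d : ℕ) : Prop :=
  ∃ N : ℕ, ∀ (r : ℕ) (P : Fin r → MvPolynomial ι K) (D : Fin r → ℕ),
    (∀ k, (P k).IsHomogeneous (D k)) → (∀ k, ∀ x ∈ Z, eval x (P k) = 0) → ∀ ε : ℝ, 0 < ε →
      ∃ Y : Set (ι → F), CutBy N Y ∧ DimGE Y d ∧ ∀ y ∈ Y, ∀ k, T.InTube (P k) (D k) ε y

theorem toric_of_approxBounded (T : Tilting p K F) {Z : Set (ι → K)} (hZ : IsClosedCone Z) {d : ℕ}
    (hd : DimLE Z d) (h : ApproxBounded T.toTiltPair Z d) :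
    ∃ W ⊆ Z, IsIrr W ∧ IsToric W ∧ DimGE W d ∧ (IsIrr Z → W = Z) := by
  classical
  obtain ⟨N, hN⟩ := h
  -- the set is not empty
  have hZne : Z.Nonempty := by
    by_contra hemp
    rw [Set.not_nonempty_iff_eq_empty] at hemp
    obtain ⟨Y, -, hYd, hYt⟩ := hN 1 (fun _ => 1) (fun _ => 0) (fun _ => isHomogeneous_one _ _)
      (fun _ x hx => by rw [hemp] at hx; exact absurd hx (Set.notMem_empty x)) (1 / 2) (by norm_num)
    obtain ⟨y, hy⟩ := Pool.Agent.R388.TP.dimGE_nonempty hYd
    have h1 := hYt y hy 0 (∑ i, T.absF (y i)) (fun i =>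
      Finset.single_le_sum (f := fun i => T.absF (y i)) (fun i _ => T.absF.nonneg _)
        (Finset.mem_univ i))
    rw [map_one, map_one, pow_zero] at h1
    norm_num at h1
  obtain ⟨r, g, hg, hZg⟩ := Pool.Agent.R388.TP.exists_gens (k := K) (L := K) (X := Z) hZ hZne
  choose D hD hgD using hg
  have hgZ : ∀ l, ∀ x ∈ Z, eval x (g l) = 0 := by
    intro l x hx
    rw [hZg] at hx
    have := hx l
    rwa [aeval_eq_eval] at this
  choose Y hYc hYd hYt using fun m : ℕ => hN r g D hgD hgZ (1 / ((m : ℝ) + 1)) (by positivity)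
  obtain ⟨Yh, hYhc, hYhd, hYh⟩ := limit_cone T.ultraF hYc hYd
  have hA := nearAdd T
  have : IsAlgClosed (Hull T.absF) := hull_closed T.ultraF
  refine forward_ext (emb T.absK) (hullPair T.toTiltPair hA) (hull_nearAdd T.toTiltPair hA) hZ hd
    hZne hYhc hYhd fun y hy q hq => ?_
  -- the generators
  have hgen : ∀ l, eval (fun i => (hullPair T.toTiltPair hA).sharp (y i))
      (map (emb T.absK) (g l)) = 0 := by
    intro l
    by_cases hy0 : y = 0
    · have h1 := eval_smul_hom ((hgD l).map (emb T.absK)) 0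
        (fun i => (hullPair T.toTiltPair hA).sharp (y i))
      rw [zero_pow (hD l).ne', zero_mul] at h1
      rw [← h1]
      congr 2
      funext i
      rw [hy0, Pi.zero_apply, TiltPair.sharp_zero, zero_mul]
    · obtain ⟨x, hx1, hx2⟩ := hYh y hy hy0
      have h1 := limit_eq T.toTiltPair hA (g := g l) (D := D l) (Y := Y)
        (fun m y hy => hYt m y hy l) x hx2
      have h2 : (fun i => (hullPair T.toTiltPair hA).sharp (cl T.absF (x i))) =
          fun i => (hullPair T.toTiltPair hA).sharp (y i) := by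
        funext i
        rw [hx1]
      rw [h2] at h1
      exact h1
  have hrad : q ∈ (Ideal.span (Set.range g)).radical := by
    rw [← vanishingIdeal_zeroLocus_eq_radical (K := K), mem_vanishingIdeal_iff]
    intro x hx
    rw [aeval_eq_eval]
    refine hq x ?_
    rw [hZg]
    intro l
    exact (mem_zeroLocus_iff.1 hx) _ (Ideal.subset_span ⟨l, rfl⟩)
  obtain ⟨n, hn⟩ := hrad
  have hle : Ideal.span (Set.range g) ≤ RingHom.ker
      ((eval fun i => (hullPair T.toTiltPair hA).sharp (y i)).comp (map (emb T.absK))) := by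
    rw [Ideal.span_le]
    rintro _ ⟨l, rfl⟩
    exact hgen l
  have h1 := hle hn
  rw [RingHom.mem_ker, map_pow] at h1
  exact eq_zero_of_pow_eq_zero h1

end Pool.Agent.H20.RD
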