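import Pool.Agent.H20.RD.Red3
import Pool.Agent.H20.RG.HullPair

/-! The ultrapower, its bounded elements and their reductions. -/

set_option autoImplicit false
set_option linter.unusedSectionVars false

namespace Pool.Agent.H20.RD

open Filter Topology MvPolynomial
open Pool.Agent.H20.RG

variable {L : Type} [Field L]

/-- the ultrapower -/
def Gm (L : Type) [Field L] : Type := (UF : Filter ℕ).Germ L

noncomputable instance : Field (Gm L) := inferInstanceAs (Field (Filter.Germ (UF : Filter ℕ) L))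

/-- classes of sequences -/
noncomputable def gm : (ℕ → L) →+* Gm L := Filter.Germ.coeRingHom (UF : Filter ℕ)

lemma gm_surj : Function.Surjective (gm : (ℕ → L) →+* Gm L) := fun g =>
  Filter.Germ.inductionOn (p := fun g : Filter.Germ (UF : Filter ℕ) L => ∃ f, gm f = g) g
    fun f => ⟨f, rfl⟩

lemma gm_eq {f g : ℕ → L} : gm f = gm g ↔ ∀ᶠ m in (UF : Filter ℕ), f m = g m :=
  Filter.Germ.coe_eq

lemma gm_zero {f : ℕ → L} : gm f = 0 ↔ ∀ᶠ m in (UF : Filter ℕ), f m = 0 := by
  rw [← map_zero gm, gm_eq]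
  rfl

theorem gm_closed [IsAlgClosed L] : IsAlgClosed (Gm L) := by
  refine IsAlgClosed.of_exists_root _ fun P hP hirr => ?_
  set n := P.natDegree with hn
  have hn0 : 0 < n := hirr.natDegree_pos
  choose c hc using fun i => gm_surj (P.coeff i)
  let Q : ℕ → Polynomial L := fun m => Polynomial.X ^ n +
    ∑ i ∈ Finset.range n, Polynomial.C (c i m) * Polynomial.X ^ i
  have hdeg : ∀ m, (∑ i ∈ Finset.range n, Polynomial.C (c i m) *
      (Polynomial.X : Polynomial L) ^ i).degree < n := by
    intro m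
    refine (Polynomial.degree_sum_le _ _).trans_lt ?_
    rw [Finset.sup_lt_iff (by exact WithBot.bot_lt_coe n)]
    intro i hi
    rw [Finset.mem_range] at hi
    refine (Polynomial.degree_C_mul_X_pow_le _ _).trans_lt ?_
    exact_mod_cast hi
  have hQdeg : ∀ m, (Q m).degree = n := by
    intro m
    simp only [Q]
    rw [Polynomial.degree_add_eq_left_of_degree_lt]
    · exact Polynomial.degree_X_pow n
    · rw [Polynomial.degree_X_pow]
      exact hdeg m
  have hroot : ∀ m, ∃ x, (Q m).eval x = 0 := fun m =>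
    IsAlgClosed.exists_root _ (by rw [hQdeg]; exact_mod_cast hn0.ne')
  choose x hx using hroot
  have hev : ∀ m, x m ^ n = - ∑ i ∈ Finset.range n, c i m * x m ^ i := by
    intro m
    have h1 := hx m
    simp only [Q] at h1
    rw [Polynomial.eval_add, Polynomial.eval_pow, Polynomial.eval_X, Polynomial.eval_finsetSum] at h1
    simp only [Polynomial.eval_mul, Polynomial.eval_C, Polynomial.eval_pow, Polynomial.eval_X] at h1
    linear_combination h1
  refine ⟨gm x, ?_⟩
  have h1 : x ^ n + ∑ i ∈ Finset.range n, c i * x ^ i = 0 := by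
    funext m
    rw [Pi.add_apply, Pi.pow_apply, Finset.sum_apply, hev m]
    simp only [Pi.mul_apply, Pi.pow_apply]
    rw [neg_add_cancel]
    rfl
  have h2 := congrArg gm h1
  rw [map_add, map_pow, map_sum, map_zero] at h2
  rw [hP.as_sum, Polynomial.eval_add, Polynomial.eval_pow, Polynomial.eval_X,
    Polynomial.eval_finsetSum, ← h2, ← hn]
  congr 1
  refine Finset.sum_congr rfl fun i _ => ?_
  rw [Polynomial.eval_mul, Polynomial.eval_C, Polynomial.eval_pow, Polynomial.eval_X, map_mul,
    map_pow, hc]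

/-- the bounded elements -/
noncomputable def Ob (a : AbsoluteValue L ℝ) : ValuationSubring (Gm L) where
  carrier := {g | ∃ x : Bd a, gm (x : ℕ → L) = g}
  mul_mem' := by
    rintro _ _ ⟨x, rfl⟩ ⟨y, rfl⟩
    exact ⟨x * y, map_mul gm _ _⟩
  one_mem' := ⟨1, map_one gm⟩
  add_mem' := by
    rintro _ _ ⟨x, rfl⟩ ⟨y, rfl⟩
    exact ⟨x + y, map_add gm _ _⟩
  zero_mem' := ⟨0, map_zero gm⟩
  neg_mem' := by
    rintro _ ⟨x, rfl⟩
    exact ⟨-x, map_neg gm _⟩
  mem_or_inv_mem' := by
    classical
    intro g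
    obtain ⟨f, rfl⟩ := gm_surj g
    by_cases h : ∀ᶠ m in (UF : Filter ℕ), a (f m) ≤ 1
    · left
      refine ⟨⟨fun m => if a (f m) ≤ 1 then f m else 0, 1, fun m => ?_⟩, ?_⟩
      · simp only
        split_ifs with h1
        · exact h1
        · rw [map_zero]
          exact zero_le_one
      · rw [gm_eq]
        filter_upwards [h] with m hm
        exact if_pos hm
    · right
      have h' : ∀ᶠ m in (UF : Filter ℕ), ¬ a (f m) ≤ 1 := Ultrafilter.eventually_not.2 h
      refine ⟨⟨fun m => if 1 < a (f m) then (f m)⁻¹ else 0, 1, fun m => ?_⟩, ?_⟩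
      · simp only
        split_ifs with h1
        · rw [map_inv₀]
          exact inv_le_one_of_one_le₀ h1.le
        · rw [map_zero]
          exact zero_le_one
      · refine eq_inv_of_mul_eq_one_left ?_
        rw [← map_mul, ← map_one gm, gm_eq]
        filter_upwards [h'] with m hm
        change (if 1 < a (f m) then (f m)⁻¹ else 0) * f m = 1
        rw [if_pos (not_le.1 hm)]
        refine inv_mul_cancel₀ fun h0 => hm ?_
        rw [h0, map_zero]
        exact zero_le_one

/-- bounded sequences as bounded elements -/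
noncomputable def tob (a : AbsoluteValue L ℝ) : Bd a →+* Ob a where
  toFun x := ⟨gm (x : ℕ → L), x, rfl⟩
  map_one' := Subtype.ext (map_one gm)
  map_mul' _ _ := Subtype.ext (map_mul gm _ _)
  map_zero' := Subtype.ext (map_zero gm)
  map_add' _ _ := Subtype.ext (map_add gm _ _)

lemma tob_coe (a : AbsoluteValue L ℝ) (x : Bd a) : ((tob a x : Ob a) : Gm L) = gm (x : ℕ → L) := rfl

lemma tob_surj (a : AbsoluteValue L ℝ) : Function.Surjective (tob a) := by
  rintro ⟨_, x, rfl⟩
  exact ⟨x, rfl⟩

lemma tob_ker (a : AbsoluteValue L ℝ) : RingHom.ker (tob a) ≤ RingHom.ker (cl a) := by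
  intro x hx
  rw [RingHom.mem_ker] at hx ⊢
  have h1 : gm (x : ℕ → L) = 0 := congrArg Subtype.val hx
  rw [gm_zero] at h1
  rw [cl_eq_zero]
  refine lam_eq a ((tendsto_const_nhds (x := (0 : ℝ))).congr' ?_)
  filter_upwards [h1] with m hm
  rw [hm, map_zero]

/-- the reduction -/
noncomputable def rho (a : AbsoluteValue L ℝ) : Ob a →+* Hull a :=
  (tob a).liftOfSurjective (tob_surj a) ⟨cl a, tob_ker a⟩

lemma rho_tob (a : AbsoluteValue L ℝ) (x : Bd a) : rho a (tob a x) = cl a x :=
  (tob a).liftOfSurjective_comp_apply (tob_surj a) ⟨cl a, tob_ker a⟩ x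

theorem rho_red (a : AbsoluteValue L ℝ) : IsRed (rho a) := by
  classical
  refine ⟨fun z => ?_, fun y hy => ?_⟩
  · obtain ⟨x, rfl⟩ := cl_surj a z
    exact ⟨tob a x, rho_tob a x⟩
  · obtain ⟨x, rfl⟩ := tob_surj a y
    rw [rho_tob, Ne, cl_eq_zero] at hy
    have hpos : 0 < lam a x := lt_of_le_of_ne (lam_nonneg a x) (Ne.symm hy)
    have hev : ∀ᶠ m in (UF : Filter ℕ), lam a x / 2 < a ((x : ℕ → L) m) :=
      (lam_spec a x).eventually (lt_mem_nhds (half_lt_self hpos))
    have hb : ∀ m, a (if lam a x / 2 < a ((x : ℕ → L) m) then ((x : ℕ → L) m)⁻¹ else 0) ≤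
        (lam a x / 2)⁻¹ := by
      intro m
      split_ifs with h
      · rw [map_inv₀]
        exact inv_anti₀ (half_pos hpos) h.le
      · rw [map_zero]
        have := half_pos hpos
        positivity
    let y' : Bd a := ⟨fun m => if lam a x / 2 < a ((x : ℕ → L) m) then ((x : ℕ → L) m)⁻¹ else 0,
      _, hb⟩
    refine IsUnit.of_mul_eq_one (tob a y') ?_
    rw [← map_mul]
    apply Subtype.ext
    rw [tob_coe]
    change gm _ = 1
    rw [← map_one gm, gm_eq]
    filter_upwards [hev] with m hm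
    change (x : ℕ → L) m * (if lam a x / 2 < a ((x : ℕ → L) m) then ((x : ℕ → L) m)⁻¹ else 0) = 1
    rw [if_pos hm, mul_inv_cancel₀]
    intro h3
    rw [h3, map_zero] at hm
    have := half_pos hpos
    linarith

/-- evaluation of polynomials with varying coefficients -/
lemma eval_gm {ι : Type} [Fintype ι] (S : Finset (ι →₀ ℕ)) (c : (ι →₀ ℕ) → ℕ → L)
    (y : ι → ℕ → L) : eval (fun i => gm (y i)) (∑ α ∈ S, monomial α (gm (c α))) =
      gm fun m => eval (fun i => y i m) (∑ α ∈ S, monomial α (c α m)) := by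
  have h1 : (fun m => eval (fun i => y i m) (∑ α ∈ S, monomial α (c α m))) =
      ∑ α ∈ S, c α * ∏ i, y i ^ α i := by
    funext m
    rw [map_sum, Finset.sum_apply]
    refine Finset.sum_congr rfl fun α _ => ?_
    rw [eval_monomial, Finsupp.prod_fintype _ _ (fun i => pow_zero _), Pi.mul_apply,
      Finset.prod_apply]
    rfl
  rw [h1, map_sum, map_sum]
  refine Finset.sum_congr rfl fun α _ => ?_
  rw [eval_monomial, Finsupp.prod_fintype _ _ (fun i => pow_zero _), map_mul, map_prod]
  simp only [map_pow]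

end Pool.Agent.H20.RD
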