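import Pool.Agent.H20.RD.Lmt

/-! The reduction of a closed cone, and the limit in the hull. -/

set_option autoImplicit false
set_option linter.unusedSectionVars false

namespace Pool.Agent.H20.RD

open Filter Topology MvPolynomial Pool.Agent.Y129.TA
open Pool.Agent.H20.RG

section Red

variable {G κ : Type} [Field G] [IsAlgClosed G] [Field κ] [Infinite κ] {O : ValuationSubring G}
  {ι : Type} [Fintype ι]

/-- the reduction of the zero set -/
def Rd (ρ : O →+* κ) (Q : Ideal (MvPolynomial ι G)) : Set (ι → κ) := {y | Lim ρ Q y}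

lemma Rd_cone {ρ : O →+* κ} {Q : Ideal (MvPolynomial ι G)} (hQ : HomI Q) :
    IsClosedCone (Rd ρ Q) := by
  refine ⟨⟨Ideal.span {q' | ∃ q : MvPolynomial ι O, map O.subtype q ∈ Q ∧ map ρ q = q'}, ?_⟩,
    fun a y hy => ?_⟩
  · ext y
    rw [mem_zeroLocus_iff]
    constructor
    · intro h q' hq'
      have h2 : Ideal.span {q' | ∃ q : MvPolynomial ι O, map O.subtype q ∈ Q ∧ map ρ q = q'} ≤
          RingHom.ker (eval y) := by
        rw [Ideal.span_le]
        rintro _ ⟨q, hq, rfl⟩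
        exact h q hq
      rw [aeval_eq_eval]
      exact h2 hq'
    · intro h q hq
      have h1 := h _ (Ideal.subset_span ⟨q, hq, rfl⟩)
      rwa [aeval_eq_eval] at h1
  · exact Lim.smul hQ hy a

lemma Rd_dim {ρ : O →+* κ} (hρ : IsRed ρ) {Q : Ideal (MvPolynomial ι G)}
    (hcone : ∀ c : G, ∀ z ∈ zeroLocus G Q, c • z ∈ zeroLocus G Q) {d : ℕ}
    (hd : DimGE (zeroLocus G Q) d) : DimGE (Rd ρ Q) d := by
  classical
  intro q hq
  choose D hD hqD using hq
  choose l hl using hρ.surj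
  let q' : Fin d → MvPolynomial ι O := fun j =>
    ∑ α ∈ (q j).support, monomial α (l ((q j).coeff α))
  have hq'ρ : ∀ j, map ρ (q' j) = q j := by
    intro j
    simp only [q']
    rw [map_sum]
    conv_rhs => rw [(q j).as_sum]
    exact Finset.sum_congr rfl fun α _ => by rw [map_monomial, hl]
  have hq'h : ∀ j, (q' j).IsHomogeneous (D j) := by
    intro j
    refine IsHomogeneous.sum _ _ _ fun α hα => isHomogeneous_monomial _ ?_
    have h1 := hqD j (mem_support_iff.1 hα)
    rw [← h1, Finsupp.weight_apply, Finsupp.degree_apply, Finsupp.sum]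
    simp
  obtain ⟨z, hz, hz0, hzq⟩ := hd (fun j => map O.subtype (q' j)) fun j =>
    ⟨D j, hD j, (hq'h j).map O.subtype⟩
  obtain ⟨i1, hi1⟩ : ∃ i, z i ≠ 0 := by
    by_contra h
    push Not at h
    exact hz0 (funext h)
  obtain ⟨i0, -, hi0⟩ := Finset.exists_max_image Finset.univ (fun i => O.valuation (z i))
    ⟨i1, Finset.mem_univ _⟩
  have hzi0 : z i0 ≠ 0 := by
    intro h
    have h1 := hi0 i1 (Finset.mem_univ _)
    rw [h, map_zero] at h1
    exact hi1 ((map_eq_zero _).1 (le_antisymm h1 zero_le))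
  have hO : ∀ i, ((z i0)⁻¹ • z) i ∈ O := by
    intro i
    rw [Pi.smul_apply, smul_eq_mul, ← O.valuation_le_one_iff, map_mul, map_inv₀,
      inv_mul_le_iff₀ (zero_lt_iff.2 ((Valuation.ne_zero_iff _).2 hzi0)), mul_one]
    exact hi0 i (Finset.mem_univ _)
  let w : ι → O := fun i => ⟨_, hO i⟩
  have hw : (fun i => (w i : G)) = (z i0)⁻¹ • z := rfl
  have hev : ∀ f : MvPolynomial ι O, eval ((z i0)⁻¹ • z) (map O.subtype f) = 0 →
      eval (fun i => ρ (w i)) (map ρ f) = 0 := by
    intro f hf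
    rw [eval_hom]
    have h1 := eval_coe w f
    rw [hw, hf] at h1
    have h2 : eval w f = 0 := Subtype.ext h1.symm
    rw [h2, map_zero]
  refine ⟨fun i => ρ (w i), fun f hf => hev f ?_, fun h0 => ?_, fun j => ?_⟩
  · have h1 := (mem_zeroLocus_iff.1 (hcone (z i0)⁻¹ z hz)) _ hf
    rwa [aeval_eq_eval] at h1
  · have h1 : ρ (w i0) = 0 := congrFun h0 i0
    have h2 : w i0 = 1 := by
      apply Subtype.ext
      change (z i0)⁻¹ * z i0 = 1
      exact inv_mul_cancel₀ hzi0
    rw [h2, map_one] at h1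
    exact one_ne_zero h1
  · rw [← hq'ρ j]
    refine hev _ ?_
    have h1 := eval_smul_hom ((hq'h j).map O.subtype) (z i0)⁻¹ z
    rw [hzq j, mul_zero] at h1
    exact h1

end Red

section Limit

variable {L : Type} [Field L] [IsAlgClosed L] {ι : Type} [Fintype ι]

/-- **Limits of closed cones of bounded degree.** -/
theorem limit_cone {a : AbsoluteValue L ℝ} (ha : ∀ x y, a (x + y) ≤ max (a x) (a y))
    {Y : ℕ → Set (ι → L)} {N d : ℕ} (hY : ∀ m, CutBy N (Y m)) (hd : ∀ m, DimGE (Y m) d) :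
    ∃ Yh : Set (ι → Hull a), IsClosedCone Yh ∧ DimGE Yh d ∧ ∀ y ∈ Yh, y ≠ 0 →
      ∃ x : ι → Bd a, (∀ i, cl a (x i) = y i) ∧
        ∀ᶠ m in (UF : Filter ℕ), (fun i => (x i : ℕ → L) m) ∈ Y m := by
  classical
  have hcl : IsAlgClosed (Gm L) := gm_closed
  have hcl2 : IsAlgClosed (Hull a) := hull_closed ha
  have hinf : Infinite (Hull a) := IsAlgClosed.instInfinite
  obtain ⟨Q, hQ, hQh, hQd, hQY⟩ := exists_prime hY hd
  have hcone : ∀ c : Gm L, ∀ z ∈ zeroLocus (Gm L) Q, c • z ∈ zeroLocus (Gm L) Q := by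
    intro c z hz
    rw [mem_zeroLocus_iff] at hz ⊢
    intro f hf
    rw [aeval_eq_eval]
    refine eval_smul_comps f c z fun k => ?_
    have := hz _ (hQh f hf k)
    rwa [aeval_eq_eval] at this
  refine ⟨Rd (rho a) Q, Rd_cone hQh, Rd_dim (rho_red a) hcone hQd, fun y hy hy0 => ?_⟩
  obtain ⟨z, hz, hzy⟩ := red (rho_red a) _ ι rfl Q hQ hQh y hy0 hy
  choose x hx using fun i => tob_surj a (z i)
  refine ⟨x, fun i => ?_, ?_⟩
  · rw [← rho_tob, hx, hzy]
  · have h1 : (fun i => (z i : Gm L)) ∈ Ys Y := by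
      refine hQY ?_
      rw [mem_zeroLocus_iff]
      intro f hf
      rw [aeval_eq_eval]
      exact hz f hf
    exact h1 (fun i => (x i : ℕ → L)) fun i => by
      change gm (x i : ℕ → L) = (z i : Gm L)
      rw [← hx i]
      rfl

end Limit

end Pool.Agent.H20.RD
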