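import Pool.Agent.H20.RD.Top

/-! Lifting of points of linear projections. -/

set_option autoImplicit false
set_option linter.unusedSectionVars false

namespace Pool.Agent.H20.RD

open MvPolynomial

variable {ι : Type} [Fintype ι] [DecidableEq ι]

/-- the linear projection in the direction `(w, 1)` -/
noncomputable def lin {S : Type} [CommRing S] (j : ι) (w : {i // i ≠ j} → S) :
    MvPolynomial {i // i ≠ j} S →ₐ[S] MvPolynomial ι S :=
  aeval fun i => X i.1 - C (w i) * X j

lemma eval_lin {S : Type} [CommRing S] (j : ι) (w : {i // i ≠ j} → S) (z : ι → S)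
    (q : MvPolynomial {i // i ≠ j} S) :
    eval z (lin j w q) = eval (fun i => z i.1 - w i * z j) q := by
  unfold lin
  have h1 : (eval z).comp (aeval fun i : {i // i ≠ j} => (X i.1 - C (w i) * X j :
      MvPolynomial ι S)).toRingHom = eval (fun i : {i // i ≠ j} => z i.1 - w i * z j) := by
    refine MvPolynomial.ringHom_ext (fun c => ?_) fun i => ?_
    · simp
    · simp
  exact congrArg (fun ψ : MvPolynomial {i // i ≠ j} S →+* S => ψ q) h1

lemma map_lin {S S' : Type} [CommRing S] [CommRing S'] (f : S →+* S') (j : ι)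
    (w : {i // i ≠ j} → S) (q : MvPolynomial {i // i ≠ j} S) :
    map f (lin j w q) = lin j (fun i => f (w i)) (map f q) := by
  unfold lin
  have h1 : (map f).comp (aeval fun i : {i // i ≠ j} => (X i.1 - C (w i) * X j :
      MvPolynomial ι S)).toRingHom =
      (aeval fun i : {i // i ≠ j} => (X i.1 - C (f (w i)) * X j : MvPolynomial ι S')).toRingHom.comp
        (map f) := by
    refine MvPolynomial.ringHom_ext (fun c => ?_) fun i => ?_
    · simp
    · simp
  exact congrArg (fun ψ : MvPolynomial {i // i ≠ j} S →+* MvPolynomial ι S' => ψ q) h1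

lemma hom_lin {S : Type} [CommRing S] (j : ι) (w : {i // i ≠ j} → S)
    {q : MvPolynomial {i // i ≠ j} S} {k : ℕ} (hq : q.IsHomogeneous k) :
    (lin j w q).IsHomogeneous k := by
  have h1 := hq.aeval (fun i : {i // i ≠ j} => (X i.1 - C (w i) * X j : MvPolynomial ι S))
    (n := 1) (fun i => by
      refine (isHomogeneous_X S i.1).sub ?_
      have := (isHomogeneous_C ι (w i)).mul (isHomogeneous_X S j)
      simpa using this)
  rwa [one_mul] at h1

variable {G : Type} [Field G] [IsAlgClosed G]

/-- **Points lift.** -/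
theorem lift_point (j : ι) (w : {i // i ≠ j} → G) (Q : Ideal (MvPolynomial ι G))
    {h0 : MvPolynomial {i // i ≠ j} G} {k : ℕ} (hh : h0.IsHomogeneous k) (hw : eval w h0 ≠ 0)
    (hQ : rename (fun i : {i // i ≠ j} => i.1) h0 ∈ Q) {z' : {i // i ≠ j} → G}
    (hz : ∀ q, lin j w q ∈ Q → eval z' q = 0) :
    ∃ t : G, ∀ q ∈ Q, eval (fun i => if h : i = j then t else z' ⟨i, h⟩ + w ⟨i, h⟩ * t) q = 0 := by
  classical
  let f : MvPolynomial {i // i ≠ j} G →+* MvPolynomial ι G ⧸ Q :=
    (Ideal.Quotient.mk Q).comp (lin j w).toRingHom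
  have hfX : ∀ i, f (X i) = Ideal.Quotient.mk Q (X i.1) - f (C (w i)) * Ideal.Quotient.mk Q (X j) := by
    intro i
    simp only [f, RingHom.comp_apply]
    have h1 : (lin j w).toRingHom (X i) = X i.1 - C (w i) * X j := by
      change lin j w (X i) = _
      unfold lin
      rw [aeval_X]
    have h2 : (lin j w).toRingHom (C (w i)) = C (w i) := by
      change lin j w (C (w i)) = _
      unfold lin
      rw [aeval_C]
      rfl
    rw [h1, h2, map_sub, map_mul]
  -- the last coordinate is integral
  have hXj : f.IsIntegralElem (Ideal.Quotient.mk Q (X j)) := by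
    have h1 : (map C h0 : MvPolynomial {i // i ≠ j} (MvPolynomial {i // i ≠ j} G)).IsHomogeneous k :=
      hh.map C
    obtain ⟨h2, h3⟩ := lineP_top (fun i => (X i : MvPolynomial {i // i ≠ j} G)) (fun i => C (w i)) h1
    refine integral_of f h2 (u := C (eval w h0)) ?_ ?_ ?_
    · exact (isUnit_iff_ne_zero.2 hw).map C
    · rw [h3]
      rw [eval_map]
      have h4 : (eval₂Hom C fun i => C (w i)) = (C : G →+* MvPolynomial {i // i ≠ j} G).comp (eval w) := by
        refine MvPolynomial.ringHom_ext (fun c => ?_) fun i => ?_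
        · simp
        · simp
      exact congrArg (fun ψ : MvPolynomial {i // i ≠ j} G →+* _ => ψ h0) h4
    · have h5 : Ideal.Quotient.mk Q (rename (fun i : {i // i ≠ j} => i.1) h0) = 0 :=
        Ideal.Quotient.eq_zero_iff_mem.2 hQ
      rw [← h5]
      unfold lineP
      have h6 : (Polynomial.eval₂RingHom f (Ideal.Quotient.mk Q (X j))).comp
          ((eval₂Hom Polynomial.C (fun i => Polynomial.C (X i : MvPolynomial {i // i ≠ j} G) +
            Polynomial.C (C (w i)) * Polynomial.X)).comp (map C)) =
          (Ideal.Quotient.mk Q).comp (rename (fun i : {i // i ≠ j} => i.1)).toRingHom := by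
        refine MvPolynomial.ringHom_ext (fun c => ?_) fun i => ?_
        · simp only [RingHom.comp_apply, map_C, coe_eval₂Hom, eval₂_C]
          have h7 : (rename (fun i : {i // i ≠ j} => i.1)).toRingHom (C c) = (C c : MvPolynomial ι G) :=
            rename_C _ _
          rw [h7]
          change Polynomial.eval₂ f _ (Polynomial.C (C c)) = _
          rw [Polynomial.eval₂_C]
          change Ideal.Quotient.mk Q (lin j w (C c)) = _
          unfold lin
          rw [aeval_C]
          rfl
        · simp only [RingHom.comp_apply, map_X, coe_eval₂Hom, eval₂_X]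
          have h7 : (rename (fun i : {i // i ≠ j} => i.1)).toRingHom (X i) =
              (X i.1 : MvPolynomial ι G) := rename_X _ _
          rw [h7]
          change Polynomial.eval₂ f _ (Polynomial.C (X i) + Polynomial.C (C (w i)) * Polynomial.X) = _
          rw [Polynomial.eval₂_add, Polynomial.eval₂_mul, Polynomial.eval₂_C, Polynomial.eval₂_C,
            Polynomial.eval₂_X, hfX]
          ring
      exact congrArg (fun ψ : MvPolynomial {i // i ≠ j} G →+* _ => ψ h0) h6
  letI := f.toAlgebra
  have hint : Algebra.IsIntegral (MvPolynomial {i // i ≠ j} G) (MvPolynomial ι G ⧸ Q) := by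
    constructor
    intro x
    obtain ⟨q, rfl⟩ := Ideal.Quotient.mk_surjective x
    induction q using MvPolynomial.induction_on with
    | C c =>
      have h1 : Ideal.Quotient.mk Q (C c) = algebraMap (MvPolynomial {i // i ≠ j} G) _ (C c) := by
        change _ = Ideal.Quotient.mk Q (lin j w (C c))
        unfold lin
        rw [aeval_C]
        rfl
      rw [h1]
      exact isIntegral_algebraMap
    | add p q hp hq => rw [map_add]; exact hp.add hq
    | mul_X p i hp =>
      rw [map_mul]
      refine hp.mul ?_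
      by_cases hi : i = j
      · rw [hi]; exact hXj
      · have h1 := hfX ⟨i, hi⟩
        have h2 : Ideal.Quotient.mk Q (X i) = f (X ⟨i, hi⟩) +
            f (C (w ⟨i, hi⟩)) * Ideal.Quotient.mk Q (X j) := by
          rw [h1]
          ring
        rw [h2]
        exact (isIntegral_algebraMap (R := MvPolynomial {i // i ≠ j} G) (x := X ⟨i, hi⟩)).add
          ((isIntegral_algebraMap (R := MvPolynomial {i // i ≠ j} G)
            (x := C (w ⟨i, hi⟩))).mul hXj)
  have hmax : (RingHom.ker (eval z')).IsMaximal :=
    RingHom.ker_isMaximal_of_surjective _ fun c => ⟨C c, eval_C c⟩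
  obtain ⟨N, hN, hNc⟩ := Ideal.exists_ideal_over_maximal_of_isIntegral
    (S := MvPolynomial ι G ⧸ Q) (RingHom.ker (eval z')) (by
      intro q hq
      rw [RingHom.mem_ker] at hq ⊢
      exact hz q (Ideal.Quotient.eq_zero_iff_mem.1 hq))
  have hN' : (N.comap (Ideal.Quotient.mk Q)).IsMaximal :=
    Ideal.comap_isMaximal_of_surjective _ Ideal.Quotient.mk_surjective
  obtain ⟨x, hx⟩ := isMaximal_iff_eq_vanishingIdeal_singleton.1 hN'
  have hxe : ∀ q, Ideal.Quotient.mk Q q ∈ N → eval x q = 0 := by
    intro q hq
    have h1 : q ∈ vanishingIdeal G {x} := by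
      rw [← hx]
      exact hq
    have h2 := (mem_vanishingIdeal_singleton_iff x q).1 h1
    rwa [aeval_eq_eval] at h2
  refine ⟨x j, fun q hq => ?_⟩
  have hxx : (fun i => if h : i = j then x j else z' ⟨i, h⟩ + w ⟨i, h⟩ * x j) = x := by
    funext i
    by_cases h : i = j
    · rw [dif_pos h, h]
    · rw [dif_neg h]
      have h1 : (X ⟨i, h⟩ - C (z' ⟨i, h⟩) : MvPolynomial {i // i ≠ j} G) ∈
          N.comap (algebraMap (MvPolynomial {i // i ≠ j} G) (MvPolynomial ι G ⧸ Q)) := by
        rw [hNc, RingHom.mem_ker, map_sub, eval_X, eval_C, sub_self]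
      have h2 : Ideal.Quotient.mk Q (lin j w (X ⟨i, h⟩ - C (z' ⟨i, h⟩))) ∈ N := h1
      have h3 := hxe _ h2
      rw [eval_lin, map_sub, eval_X, eval_C] at h3
      linear_combination -h3
  rw [hxx]
  refine hxe q ?_
  rw [Ideal.Quotient.eq_zero_iff_mem.2 hq]
  exact N.zero_mem

end Pool.Agent.H20.RD
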