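import Pool.Agent.H20.RD.Grm
import Pool.Agent.H20.RG.Main

/-! Limits of closed cones of bounded degree. -/

set_option autoImplicit false
set_option linter.unusedSectionVars false

namespace Pool.Agent.H20.RD

open Filter Topology MvPolynomial Pool.Agent.Y129.TA
open Pool.Agent.H20.RG

variable {L : Type} [Field L] {ι : Type} [Fintype ι]

/-- the set is cut out by forms of degree at most `N` -/
def CutBy (N : ℕ) (Y : Set (ι → L)) : Prop :=
  ∃ S : Set (MvPolynomial ι L), (∀ q ∈ S, ∃ D, 0 < D ∧ D ≤ N ∧ q.IsHomogeneous D) ∧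
    Y = {y | ∀ q ∈ S, eval y q = 0}

lemma CutBy.smul {N : ℕ} {Y : Set (ι → L)} (h : CutBy N Y) (c : L) {y : ι → L} (hy : y ∈ Y) :
    c • y ∈ Y := by
  obtain ⟨S, hS, rfl⟩ := h
  intro q hq
  obtain ⟨D, -, -, hD⟩ := hS q hq
  have h1 := eval_smul_hom hD c y
  rw [hy q hq, mul_zero] at h1
  exact h1

/-- the internal set -/
def Ys (Y : ℕ → Set (ι → L)) : Set (ι → Gm L) :=
  {z | ∀ y : ι → ℕ → L, (∀ i, gm (y i) = z i) → ∀ᶠ m in (UF : Filter ℕ), (fun i => y i m) ∈ Y m}

lemma reps_eq {y y' : ι → ℕ → L} (h : ∀ i, gm (y i) = gm (y' i)) :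
    ∀ᶠ m in (UF : Filter ℕ), (fun i => y i m) = fun i => y' i m := by
  have h1 : ∀ᶠ m in (UF : Filter ℕ), ∀ i, y i m = y' i m :=
    Filter.eventually_all.2 fun i => gm_eq.1 (h i)
  filter_upwards [h1] with m hm
  exact funext hm

lemma mem_Ys {Y : ℕ → Set (ι → L)} {y : ι → ℕ → L}
    (h : ∀ᶠ m in (UF : Filter ℕ), (fun i => y i m) ∈ Y m) : (fun i => gm (y i)) ∈ Ys Y := by
  intro y' hy'
  filter_upwards [h, reps_eq hy'] with m hm h1
  rw [h1]
  exact hm

lemma Ys_smul {Y : ℕ → Set (ι → L)} (hY : ∀ m, ∀ c : L, ∀ y ∈ Y m, c • y ∈ Y m) (c : Gm L)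
    {z : ι → Gm L} (hz : z ∈ Ys Y) : c • z ∈ Ys Y := by
  obtain ⟨γ, rfl⟩ := gm_surj c
  choose y hy using fun i => gm_surj (z i)
  have h1 := hz y hy
  have h2 : gm γ • z = fun i => gm (γ * y i) := by
    funext i
    rw [Pi.smul_apply, smul_eq_mul, map_mul, hy]
  rw [h2]
  refine mem_Ys ?_
  filter_upwards [h1] with m hm
  exact hY m (γ m) _ hm

/-- exponents of bounded degree -/
noncomputable def expo (ι : Type) [Fintype ι] [DecidableEq ι] (N : ℕ) : Finset (ι →₀ ℕ) :=
  (Finset.range (N + 1)).biUnion fun D => Finset.finsuppAntidiag Finset.univ D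

lemma mem_expo [DecidableEq ι] {N : ℕ} {f : MvPolynomial ι L} {D : ℕ} (hD : D ≤ N)
    (hf : f.IsHomogeneous D) : f.support ⊆ expo ι N := by
  intro α hα
  refine Finset.mem_biUnion.2 ⟨D, Finset.mem_range.2 (by omega), ?_⟩
  rw [Finset.mem_finsuppAntidiag]
  refine ⟨?_, Finset.subset_univ _⟩
  have h1 := hf (mem_support_iff.1 hα)
  rw [Finsupp.weight_apply, Finsupp.sum_fintype _ _ (by simp)] at h1
  simpa using h1

lemma sum_of_support [DecidableEq ι] {S : Finset (ι →₀ ℕ)} {f : MvPolynomial ι L}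
    (h : f.support ⊆ S) : ∑ α ∈ S, monomial α (f.coeff α) = f := by
  conv_rhs => rw [f.as_sum]
  symm
  refine Finset.sum_subset h fun α _ hα => ?_
  rw [notMem_support_iff.1 hα, monomial_zero]

lemma Ys_closed {Y : ℕ → Set (ι → L)} {N : ℕ} (hY : ∀ m, CutBy N (Y m)) :
    zeroLocus (Gm L) (vanishingIdeal (Gm L) (Ys Y)) = Ys Y := by
  classical
  refine Set.Subset.antisymm (fun z hz => ?_) fun z hz => ?_
  · by_contra hcon
    have hcon' : ∃ y : ι → ℕ → L, (∀ i, gm (y i) = z i) ∧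
        ¬ ∀ᶠ m in (UF : Filter ℕ), (fun i => y i m) ∈ Y m := by
      by_contra h
      push Not at h
      exact hcon h
    obtain ⟨y, hy, hny⟩ := hcon'
    have hny' : ∀ᶠ m in (UF : Filter ℕ), (fun i => y i m) ∉ Y m := Ultrafilter.eventually_not.2 hny
    have hf : ∀ m, ∃ f : MvPolynomial ι L, f.support ⊆ expo ι N ∧ (∀ x ∈ Y m, eval x f = 0) ∧
        ((fun i => y i m) ∉ Y m → eval (fun i => y i m) f ≠ 0) := by
      intro m
      by_cases hm : (fun i => y i m) ∈ Y m
      · exact ⟨0, by simp, fun x _ => map_zero _, fun h => absurd hm h⟩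
      · obtain ⟨S, hS, hYS⟩ := hY m
        have h1 : ∃ q ∈ S, eval (fun i => y i m) q ≠ 0 := by
          by_contra h
          push Not at h
          exact hm (by rw [hYS]; exact h)
        obtain ⟨q, hq, hqy⟩ := h1
        obtain ⟨D, -, hDN, hD⟩ := hS q hq
        refine ⟨q, mem_expo hDN hD, fun x hx => ?_, fun _ => hqy⟩
        rw [hYS] at hx
        exact hx q hq
    choose f hf1 hf2 hf3 using hf
    have hev : ∀ y' : ι → ℕ → L, eval (fun i => gm (y' i))
        (∑ α ∈ expo ι N, monomial α (gm fun m => (f m).coeff α)) =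
        gm fun m => eval (fun i => y' i m) (f m) := by
      intro y'
      rw [eval_gm (expo ι N) (fun α m => (f m).coeff α) y']
      congr 1
      funext m
      rw [sum_of_support (hf1 m)]
    have hmem : (∑ α ∈ expo ι N, monomial α (gm fun m => (f m).coeff α)) ∈
        vanishingIdeal (Gm L) (Ys Y) := by
      rw [mem_vanishingIdeal_iff]
      intro z' hz'
      rw [aeval_eq_eval]
      choose y' hy' using fun i => gm_surj (z' i)
      have h1 : z' = fun i => gm (y' i) := funext fun i => (hy' i).symm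
      rw [h1, hev, gm_zero]
      filter_upwards [hz' y' hy'] with m hm
      exact hf2 m _ hm
    have h1 := (mem_zeroLocus_iff.1 hz) _ hmem
    have h2 : z = fun i => gm (y i) := funext fun i => (hy i).symm
    rw [aeval_eq_eval, h2, hev, gm_zero] at h1
    obtain ⟨m, hm1, hm2⟩ := (h1.and hny').exists
    exact hf3 m hm2 hm1
  · rw [mem_zeroLocus_iff]
    intro f hf
    rw [mem_vanishingIdeal_iff] at hf
    exact hf z hz

lemma Ys_dim {Y : ℕ → Set (ι → L)} {d : ℕ} (hY : ∀ m, DimGE (Y m) d) : DimGE (Ys Y) d := by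
  classical
  intro q hq
  choose D hD hqD using hq
  choose c hc using fun (j : Fin d) (α : ι →₀ ℕ) => gm_surj ((q j).coeff α)
  have hqe : ∀ j, q j = ∑ α ∈ (q j).support, monomial α (gm (c j α)) := by
    intro j
    conv_lhs => rw [(q j).as_sum]
    exact Finset.sum_congr rfl fun α _ => by rw [hc]
  have hform : ∀ m j, IsForm (∑ α ∈ (q j).support, monomial α (c j α m)) := by
    intro m j
    refine ⟨D j, hD j, IsHomogeneous.sum _ _ _ fun α hα => isHomogeneous_monomial _ ?_⟩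
    have h1 := hqD j (mem_support_iff.1 hα)
    rw [← h1, Finsupp.weight_apply, Finsupp.degree_apply, Finsupp.sum]
    simp
  choose y hy hy0 hyq using fun m => hY m (fun j => ∑ α ∈ (q j).support, monomial α (c j α m))
    (hform m)
  refine ⟨fun i => gm fun m => y m i, mem_Ys (Filter.Eventually.of_forall hy), fun h0 => ?_,
    fun j => ?_⟩
  · have h1 : ∀ᶠ m in (UF : Filter ℕ), ∀ i, y m i = 0 := by
      refine Filter.eventually_all.2 fun i => ?_
      have h2 := congrFun h0 i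
      exact gm_zero.1 h2
    obtain ⟨m, hm⟩ := h1.exists
    exact hy0 m (funext hm)
  · rw [hqe j, eval_gm, gm_zero]
    exact Filter.Eventually.of_forall fun m => hyq m j

variable [IsAlgClosed L]

/-- an irreducible component of the internal set -/
lemma exists_prime {Y : ℕ → Set (ι → L)} {N d : ℕ} (hY : ∀ m, CutBy N (Y m))
    (hd : ∀ m, DimGE (Y m) d) : ∃ Q : Ideal (MvPolynomial ι (Gm L)), Q.IsPrime ∧ HomI Q ∧
      DimGE (zeroLocus (Gm L) Q) d ∧ zeroLocus (Gm L) Q ⊆ Ys Y := by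
  have hcl : IsAlgClosed (Gm L) := gm_closed
  have hinf : Infinite (Gm L) := IsAlgClosed.instInfinite
  have hcone : IsClosedCone (Ys Y) := ⟨⟨_, (Ys_closed hY).symm⟩, fun a y hy =>
    Ys_smul (fun m c y hy => (hY m).smul c hy) a hy⟩
  have hdim := Ys_dim hd
  have hne : (Ys Y).Nonempty := Pool.Agent.R388.TP.dimGE_nonempty hdim
  obtain ⟨r, g, hg, hYg⟩ := Pool.Agent.R388.TP.exists_gens (k := Gm L) (L := Gm L) (X := Ys Y)
    hcone hne
  have hdim' := hdim
  rw [hYg] at hdim'
  obtain ⟨P, hP, hPd⟩ := Pool.Agent.K7.H6.PT.exists_component (k := Gm L) (L := Gm L) hg hdim'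
  have hPp : P.IsPrime := hP.1.1
  have hPc := (Pool.Agent.K7.H6.PT.minimal_cone (k := Gm L) (L := Gm L) hg hP).2
  refine ⟨P, hPp, fun q hq k => ?_, hPd, fun x hx => ?_⟩
  · refine mem_vanishing_zeroLocus P fun x hx => ?_
    rw [← aeval_eq_eval]
    exact Pool.Agent.R388.TP.component_zero hPc (fun x hx => (mem_zeroLocus_iff.1 hx) q hq) k hx
  · rw [hYg]
    intro l
    exact (mem_zeroLocus_iff.1 hx) _ (hP.1.2 (Ideal.subset_span ⟨l, rfl⟩))

end Pool.Agent.H20.RD
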