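import Pool.Agent.H20.RG.HullLim
import Pool.Agent.H20.RG.Main

/-! Continuity, transfer and binomial relations for pairs with an almost additive sharp map. -/

set_option autoImplicit false
set_option linter.unusedSectionVars false

namespace Pool.Agent.H20.RD

open MvPolynomial Pool.Agent.Y129.TA
open Pool.Agent.H20.RG

variable {p : ℕ} [hp : Fact p.Prime] {K F : Type} [Field K] [Field F] [CharP F p] [IsAlgClosed F]
  {ι : Type} [Fintype ι]

/-- The map `z ↦ P(z♯)` is continuous. -/
theorem eval_sharp_cont' {σ : Type} [Fintype σ] (T : TiltPair p K F) (hA : NearAdd T) (P : MvPolynomial σ K)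
    (z₀ : σ → F) {ε : ℝ} (hε : 0 < ε) : ∃ δ : ℝ, 0 < δ ∧ ∀ z : σ → F,
      (∀ i, T.absF (z i - z₀ i) ≤ δ) →
        T.absK (eval (fun i => T.sharp (z i)) P - eval (fun i => T.sharp (z₀ i)) P) ≤ ε := by
  classical
  set R : ℝ := 1 + ∑ i, T.absF (z₀ i) with hR
  have hz₀ : ∀ i, T.absF (z₀ i) ≤ R := fun i => by
    have := Finset.single_le_sum (f := fun i => T.absF (z₀ i)) (fun i _ => T.absF.nonneg _)
      (Finset.mem_univ i)
    linarith
  have hR1 : 1 ≤ R := by
    have : 0 ≤ ∑ i, T.absF (z₀ i) := Finset.sum_nonneg fun i _ => T.absF.nonneg _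
    linarith
  obtain ⟨B, hB, -, hB2⟩ := Pool.Agent.K7.H6.PT.lipschitz T.ultraK (lt_of_lt_of_le one_pos hR1) P
  obtain ⟨δ, hδ, h⟩ := sharp_cont_ball' T hA R (ε := ε / B) (by positivity)
  refine ⟨min 1 δ, by positivity, fun z hz => ?_⟩
  have hzR : ∀ i, T.absF (z i) ≤ R := by
    intro i
    have h1 : z i = (z i - z₀ i) + z₀ i := by ring
    rw [h1]
    exact (T.ultraF _ _).trans (max_le ((hz i).trans ((min_le_left _ _).trans hR1)) (hz₀ i))
  have h1 := hB2 (fun i => T.sharp (z i)) (fun i => T.sharp (z₀ i))
    (fun i => by rw [T.abs_sharp]; exact hzR i) (fun i => by rw [T.abs_sharp]; exact hz₀ i) (ε / B)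
    (by positivity) (fun i => h _ _ (hzR i) (hz₀ i) ((hz i).trans (min_le_right _ _)))
  refine h1.trans (le_of_eq ?_)
  field_simp

/-- If `P(z♯)` vanishes at the points of an irreducible variety outside of a proper closed subset then it
vanishes on the variety. -/
theorem vanish_of_generic' {σ : Type} [Fintype σ] (T : TiltPair p K F) (hA : NearAdd T) (P : MvPolynomial σ K)
    (I : Ideal (MvPolynomial σ F)) [I.IsPrime] {f : MvPolynomial σ F} (hf : f ∉ I)
    (h : ∀ z : σ → F, (∀ q ∈ I, eval z q = 0) → eval z f ≠ 0 →
      eval (fun i => T.sharp (z i)) P = 0) {z : σ → F} (hz : ∀ q ∈ I, eval z q = 0) :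
    eval (fun i => T.sharp (z i)) P = 0 := by
  by_contra hne
  have hpos : 0 < T.absK (eval (fun i => T.sharp (z i)) P) := T.absK.pos hne
  obtain ⟨δ, hδ, h1⟩ := eval_sharp_cont' T hA P z (half_pos hpos)
  obtain ⟨t, ht1, ht2, ht3⟩ := Pool.Agent.K7.H6.PT.dense_open T.ultraF
    (fun ε hε => exists_small T hε) I hf hz hδ
  have h2 := h1 t ht3
  rw [h t ht1 ht2, zero_sub, AbsoluteValue.map_neg] at h2
  linarith

/-- A relation which holds on the image of the variety holds on the image of the zeros of the
generator of the relations. -/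
theorem transfer' (T : TiltPair p K F) (hA : NearAdd T) (P : Ideal (MvPolynomial ι F)) [hP : P.IsPrime] {σ : Type}
    [Fintype σ] (e : σ → ι) (halg : AlgOver P e) {g : MvPolynomial σ F} (hg : Irreducible g)
    (hgP : ∀ q, rename e q ∈ P ↔ g ∣ q) {R : MvPolynomial σ K}
    (hR : ∀ y : ι → F, (∀ q ∈ P, eval y q = 0) → eval (fun s => T.sharp (y (e s))) R = 0)
    {z : σ → F} (hz : eval z g = 0) : eval (fun s => T.sharp (z s)) R = 0 := by
  obtain ⟨f, hf, hlift⟩ := lift_generic P e halg
  have hpr : (Ideal.span {g}).IsPrime := (Ideal.span_singleton_prime hg.ne_zero).2 hg.prime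
  refine vanish_of_generic' T hA R (Ideal.span {g}) (f := f) (fun h => hf ((hgP f).2
    (Ideal.mem_span_singleton.1 h))) (fun t ht htf => ?_) (fun q hq => ?_)
  · obtain ⟨y, hy, hye⟩ := hlift t (fun q hq => by
      obtain ⟨r, hr⟩ := (hgP q).1 hq
      rw [hr, map_mul, ht g (Ideal.mem_span_singleton_self g), zero_mul]) htf
    have h1 := hR y hy
    simpa only [hye] using h1
  · obtain ⟨r, hr⟩ := Ideal.mem_span_singleton.1 hq
    rw [hr, map_mul, hz, zero_mul]

/-- The binomial relations. -/
theorem binomial_rel' [DecidableEq ι] (T : TiltPair p K F) (hA : NearAdd T) (P : Ideal (MvPolynomial ι F))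
    [hP : P.IsPrime] (B : Finset ι) (hind : Indep P (fun b : B => (b : ι)))
    (halg : AlgOver P (fun b : B => (b : ι))) {Z : Set (ι → K)}
    (hZ : ∀ e : Option B → ι, ∃ R : MvPolynomial (Option B) K, R ≠ 0 ∧
      ∀ x ∈ Z, eval (fun o => x (e o)) R = 0)
    (hPZ : ∀ y : ι → F, (∀ q ∈ P, eval y q = 0) → (fun i => T.sharp (y i)) ∈ Z)
    (j : ι) (hj : X j ∉ P) : ∃ (k : ℕ) (m : B → ℤ) (c : F), 0 < k ∧ c ≠ 0 ∧
      ∀ y : ι → F, (∀ q ∈ P, eval y q = 0) → (∀ i, X i ∉ P → y i ≠ 0) →
        y j ^ k = c * ∏ b : B, y b ^ m b := by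
  classical
  have hBS : ∀ b : B, X (b : ι) ∉ P := by
    intro b hb
    have h1 := hind (X b) (by rw [rename_X]; exact hb)
    exact X_ne_zero b h1
  by_cases hjB : j ∈ B
  · refine ⟨1, fun b => if (⟨j, hjB⟩ : B) = b then 1 else 0, 1, one_pos, one_ne_zero, fun y _ _ => ?_⟩
    have h1 : ∀ b : B, y b ^ (if (⟨j, hjB⟩ : B) = b then (1 : ℤ) else 0) =
        if (⟨j, hjB⟩ : B) = b then y b else 1 := by
      intro b
      split_ifs
      · exact zpow_one _
      · exact zpow_zero _
    rw [Finset.prod_congr rfl fun b _ => h1 b, Finset.prod_ite_eq, if_pos (Finset.mem_univ _),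
      one_mul, pow_one]
  · let e : Option B → ι := fun o => o.elim j fun b => b
    have he : e ∘ some = fun b : B => (b : ι) := rfl
    have halge : AlgOver P e := algOver_mono (e := fun b : B => (b : ι)) some (fun _ => rfl) halg
    have hdep : ¬ Indep P e := by
      intro h
      have h1 := halg j
      rw [projHom_range] at h1
      have h2 := (indep_iff.1 hind).option_iff_transcendental (Ideal.Quotient.mk P (X j))
      refine h2.1 ?_ h1
      convert! indep_iff.1 h using 1
      funext o
      cases o <;> rfl
    obtain ⟨g, hg, hgP⟩ := exists_relation P e (by rw [he]; exact hind) hdep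
    obtain ⟨R, hR0, hR⟩ := hZ e
    have hgX : ∀ o, ¬ g ∣ X o := by
      intro o h
      have h1 := (hgP (X o)).2 h
      rw [rename_X] at h1
      cases o with
      | none => exact hj h1
      | some b => exact hBS b h1
    have hRy : ∀ y : ι → F, (∀ q ∈ P, eval y q = 0) →
        eval (fun s => T.sharp (y (e s))) R = 0 := fun y hy =>
      hR (fun i => T.sharp (y i)) (hPZ y hy)
    have hRz : ∀ z : Option B → F, (∀ i, z i ≠ 0) → eval z g = 0 →
        eval (fun s => T.sharp (z s)) R = 0 := fun z _ hz =>
      transfer' (R := R) T hA P e halge hg hgP hRy hz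
    obtain ⟨a, b, c, hab, hc, hdvd⟩ := rigid' T hA hg hgX hR0 hRz
    have hmem : rename e (monomial a 1 - monomial b c : MvPolynomial (Option B) F) ∈ P :=
      (hgP (monomial a 1 - monomial b c)).2 hdvd
    -- the relation at points
    have hpt : ∀ y : ι → F, (∀ q ∈ P, eval y q = 0) →
        y j ^ a none * ∏ t : B, y t ^ a (some t) = c * (y j ^ b none * ∏ t : B, y t ^ b (some t)) := by
      intro y hy
      have h1 := hy _ hmem
      rw [eval_rename, map_sub, eval_monomial, eval_monomial, one_mul,
        Finsupp.prod_fintype _ _ (fun i => pow_zero _), Finsupp.prod_fintype _ _ (fun i => pow_zero _),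
        Fintype.prod_option, Fintype.prod_option, sub_eq_zero] at h1
      exact h1
    have hne : a none ≠ b none := by
      intro hn
      -- the relation between independent variables
      let a' : B →₀ ℕ := Finsupp.equivFunOnFinite.symm fun t => a (some t)
      let b' : B →₀ ℕ := Finsupp.equivFunOnFinite.symm fun t => b (some t)
      have h1 : rename e (monomial a 1 - monomial b c : MvPolynomial (Option B) F) =
          X j ^ a none * rename (fun t : B => (t : ι))
            (monomial a' 1 - monomial b' c : MvPolynomial B F) := by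
        have : Infinite F := IsAlgClosed.instInfinite
        refine MvPolynomial.funext fun y => ?_
        rw [eval_rename, map_mul, eval_rename, map_sub, eval_monomial, eval_monomial, map_sub,
          eval_monomial, eval_monomial, map_pow, eval_X,
          Finsupp.prod_fintype _ _ (fun i => pow_zero _),
          Finsupp.prod_fintype _ _ (fun i => pow_zero _),
          Finsupp.prod_fintype _ _ (fun i => pow_zero _),
          Finsupp.prod_fintype _ _ (fun i => pow_zero _),
          Fintype.prod_option, Fintype.prod_option, ← hn]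
        have h2 : ∀ t : B, a' t = a (some t) := fun t => rfl
        have h3 : ∀ t : B, b' t = b (some t) := fun t => rfl
        have h4 : ∀ t : B, e (some t) = t := fun _ => rfl
        simp only [h2, h3, h4, Function.comp_apply, one_mul]
        change y j ^ a none * _ - c * (y j ^ a none * _) = _
        ring
      rw [h1] at hmem
      have h2 := (hP.mem_or_mem hmem).resolve_left fun h => hj (hP.mem_of_pow_mem _ h)
      have h3 := hind _ h2
      have h4 : a' = b' := by
        by_contra h4
        have h5 := congrArg (coeff a') h3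
        rw [coeff_sub, coeff_monomial, coeff_monomial, if_pos rfl, if_neg fun h => h4 h.symm,
          coeff_zero, sub_zero] at h5
        exact one_ne_zero h5
      apply hab
      ext o
      cases o with
      | none => exact hn
      | some t => exact DFunLike.congr_fun h4 t
    have hy0 : ∀ y : ι → F, (∀ i, X i ∉ P → y i ≠ 0) → ∀ t : B, y t ≠ 0 := fun y hy t => hy t (hBS t)
    -- the two cases
    rcases lt_or_gt_of_ne hne with h | h
    · refine ⟨b none - a none, fun t => (a (some t) : ℤ) - b (some t), c⁻¹, by omega,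
        inv_ne_zero hc, fun y hy hyi => ?_⟩
      have h1 := hpt y hy
      have h2 : y j ≠ 0 := hyi j hj
      have h3 := hy0 y hyi
      have h4 : ∏ t : B, y t ^ ((a (some t) : ℤ) - b (some t)) =
          (∏ t : B, y t ^ a (some t)) / ∏ t : B, y t ^ b (some t) := by
        rw [← Finset.prod_div_distrib]
        exact Finset.prod_congr rfl fun t _ => by
          rw [zpow_sub₀ (h3 t), zpow_natCast, zpow_natCast]
      have h5 : (∏ t : B, y t ^ b (some t)) ≠ 0 :=
        Finset.prod_ne_zero_iff.2 fun t _ => pow_ne_zero _ (h3 t)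
      have h6 : y j ^ b none = y j ^ (b none - a none) * y j ^ a none := by
        rw [← pow_add]
        congr 1
        omega
      have h7 : y j ^ a none ≠ 0 := pow_ne_zero _ h2
      rw [h6] at h1
      rw [h4]
      have h8 : y j ^ a none * (∏ t : B, y t ^ a (some t)) =
          y j ^ a none * (c * (y j ^ (b none - a none) * ∏ t : B, y t ^ b (some t))) := by
        rw [h1]
        ring
      have h9 := mul_left_cancel₀ h7 h8
      rw [h9]
      field_simp
    · refine ⟨a none - b none, fun t => (b (some t) : ℤ) - a (some t), c, by omega,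
        hc, fun y hy hyi => ?_⟩
      have h1 := hpt y hy
      have h2 : y j ≠ 0 := hyi j hj
      have h3 := hy0 y hyi
      have h4 : ∏ t : B, y t ^ ((b (some t) : ℤ) - a (some t)) =
          (∏ t : B, y t ^ b (some t)) / ∏ t : B, y t ^ a (some t) := by
        rw [← Finset.prod_div_distrib]
        exact Finset.prod_congr rfl fun t _ => by
          rw [zpow_sub₀ (h3 t), zpow_natCast, zpow_natCast]
      have h5 : (∏ t : B, y t ^ a (some t)) ≠ 0 :=
        Finset.prod_ne_zero_iff.2 fun t _ => pow_ne_zero _ (h3 t)
      have h6 : y j ^ a none = y j ^ (a none - b none) * y j ^ b none := by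
        rw [← pow_add]
        congr 1
        omega
      have h7 : y j ^ b none ≠ 0 := pow_ne_zero _ h2
      rw [h6] at h1
      rw [h4]
      have h8 : y j ^ b none * (y j ^ (a none - b none) * ∏ t : B, y t ^ a (some t)) =
          y j ^ b none * (c * ∏ t : B, y t ^ b (some t)) := by
        rw [← mul_assoc, mul_comm (y j ^ b none), h1]
        ring
      have h9 := mul_left_cancel₀ h7 h8
      rw [mul_div_assoc', eq_div_iff h5]
      exact h9

end Pool.Agent.H20.RD
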