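import Pool.Agent.H20.RD.Lft

/-! Reduction of points of homogeneous primes over a valuation ring. -/

set_option autoImplicit false
set_option linter.unusedSectionVars false

namespace Pool.Agent.H20.RD

open MvPolynomial
open Pool.Agent.H20.RG

section Hom

variable {σ τ S : Type} [CommRing S]

/-- the ideal contains the homogeneous components of its elements -/
def HomI (Q : Ideal (MvPolynomial σ S)) : Prop := ∀ q ∈ Q, ∀ k, homogeneousComponent k q ∈ Q

lemma hc_of_hom {q : MvPolynomial σ S} {l : ℕ} (hq : q.IsHomogeneous l) (k : ℕ) :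
    homogeneousComponent k q = if k = l then q else 0 :=
  homogeneousComponent_of_mem hq

lemma comp_comm (f : MvPolynomial σ S →ₐ[S] MvPolynomial τ S)
    (hf : ∀ (q : MvPolynomial σ S) k, q.IsHomogeneous k → (f q).IsHomogeneous k)
    (q : MvPolynomial σ S) (k : ℕ) :
    homogeneousComponent k (f q) = f (homogeneousComponent k q) := by
  conv_lhs => rw [← sum_homogeneousComponent q, map_sum, map_sum]
  have h1 : ∀ l, homogeneousComponent k (f (homogeneousComponent l q)) =
      if k = l then f (homogeneousComponent l q) else 0 := fun l =>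
    hc_of_hom (hf _ _ (homogeneousComponent_isHomogeneous l q)) k
  rw [Finset.sum_congr rfl fun l _ => h1 l, Finset.sum_ite_eq]
  split_ifs with h
  · rfl
  · rw [Finset.mem_range, not_lt] at h
    rw [homogeneousComponent_eq_zero k q (by omega), map_zero]

lemma hom_rename (e : σ → τ) (q : MvPolynomial σ S) (k : ℕ) :
    homogeneousComponent k (rename e q) = rename e (homogeneousComponent k q) :=
  comp_comm (rename e) (fun _ _ h => h.rename_isHomogeneous) q k

lemma HomI.comap {Q : Ideal (MvPolynomial τ S)} (hQ : HomI Q)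
    (f : MvPolynomial σ S →ₐ[S] MvPolynomial τ S)
    (hf : ∀ (q : MvPolynomial σ S) k, q.IsHomogeneous k → (f q).IsHomogeneous k) :
    HomI (Q.comap f) := by
  intro q hq k
  rw [Ideal.mem_comap] at hq ⊢
  rw [← comp_comm f hf]
  exact hQ _ hq k

lemma eval_smul_hom {q : MvPolynomial σ S} {k : ℕ} (hq : q.IsHomogeneous k) (c : S) (x : σ → S) :
    eval (fun i => c * x i) q = c ^ k * eval x q := by
  classical
  rw [eval_eq, eval_eq, Finset.mul_sum]
  refine Finset.sum_congr rfl fun m hm => ?_
  have h1 := hq (mem_support_iff.1 hm)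
  rw [Finsupp.weight_apply, Finsupp.sum] at h1
  simp only [smul_eq_mul, Pi.one_apply, mul_one] at h1
  have h2 : ∏ i ∈ m.support, (c * x i) ^ m i = c ^ k * ∏ i ∈ m.support, x i ^ m i := by
    rw [← h1, ← Finset.prod_pow_eq_pow_sum, ← Finset.prod_mul_distrib]
    exact Finset.prod_congr rfl fun i _ => mul_pow _ _ _
  rw [h2]
  ring

lemma eval_smul_comps (q : MvPolynomial σ S) (c : S) (x : σ → S)
    (h : ∀ k, eval x (homogeneousComponent k q) = 0) : eval (fun i => c * x i) q = 0 := by
  rw [← sum_homogeneousComponent q, map_sum]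
  refine Finset.sum_eq_zero fun k _ => ?_
  rw [eval_smul_hom (homogeneousComponent_isHomogeneous k q), h, mul_zero]

lemma hom_map_comp {S' : Type} [CommRing S'] (f : S →+* S') (q : MvPolynomial σ S) (k : ℕ) :
    map f (homogeneousComponent k q) = homogeneousComponent k (map f q) := by
  conv_rhs => rw [← sum_homogeneousComponent q, map_sum, map_sum]
  have h1 : ∀ l, homogeneousComponent k (map f (homogeneousComponent l q)) =
      if k = l then map f (homogeneousComponent l q) else 0 := fun l =>
    hc_of_hom ((homogeneousComponent_isHomogeneous l q).map f) k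
  rw [Finset.sum_congr rfl fun l _ => h1 l, Finset.sum_ite_eq]
  split_ifs with h
  · rfl
  · rw [Finset.mem_range, not_lt] at h
    rw [homogeneousComponent_eq_zero k q (by omega), map_zero]

lemma hom_of_map {S' : Type} [CommRing S'] {f : S →+* S'} (hf : Function.Injective f)
    {q : MvPolynomial σ S} {k : ℕ} (h : (map f q).IsHomogeneous k) : q.IsHomogeneous k := by
  intro m hm
  refine h ?_
  rw [coeff_map]
  exact fun h0 => hm (hf (by rw [h0, map_zero]))

/-- shears -/
noncomputable def shr (j : σ) (d : σ → S) : MvPolynomial σ S →ₐ[S] MvPolynomial σ S :=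
  aeval fun i => X i + C (d i) * X j

lemma eval_shr (j : σ) (d z : σ → S) (q : MvPolynomial σ S) :
    eval z (shr j d q) = eval (fun i => z i + d i * z j) q := by
  unfold shr
  have h1 : (eval z).comp (aeval fun i => (X i + C (d i) * X j : MvPolynomial σ S)).toRingHom =
      eval (fun i => z i + d i * z j) := by
    refine MvPolynomial.ringHom_ext (fun c => ?_) fun i => ?_
    · simp
    · simp
  exact congrArg (fun ψ : MvPolynomial σ S →+* S => ψ q) h1

lemma map_shr {S' : Type} [CommRing S'] (f : S →+* S') (j : σ) (d : σ → S)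
    (q : MvPolynomial σ S) : map f (shr j d q) = shr j (fun i => f (d i)) (map f q) := by
  unfold shr
  have h1 : (map f).comp (aeval fun i => (X i + C (d i) * X j : MvPolynomial σ S)).toRingHom =
      (aeval fun i => (X i + C (f (d i)) * X j : MvPolynomial σ S')).toRingHom.comp (map f) := by
    refine MvPolynomial.ringHom_ext (fun c => ?_) fun i => ?_
    · simp
    · simp
  exact congrArg (fun ψ : MvPolynomial σ S →+* MvPolynomial σ S' => ψ q) h1

lemma hom_shr (j : σ) (d : σ → S) (q : MvPolynomial σ S) (k : ℕ) (hq : q.IsHomogeneous k) :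
    (shr j d q).IsHomogeneous k := by
  have h1 := hq.aeval (fun i => (X i + C (d i) * X j : MvPolynomial σ S)) (n := 1) (fun i => by
    refine (isHomogeneous_X S i).add ?_
    have := (isHomogeneous_C σ (d i)).mul (isHomogeneous_X S j)
    simpa using this)
  rwa [one_mul] at h1

lemma map_lineP [Fintype σ] {S' : Type} [CommRing S'] (f : S →+* S') (a b : σ → S)
    (q : MvPolynomial σ S) :
    (lineP a b q).map f = lineP (fun i => f (a i)) (fun i => f (b i)) (map f q) := by
  unfold lineP
  have h1 : (Polynomial.mapRingHom f).comp (eval₂Hom Polynomial.C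
      (fun i => Polynomial.C (a i) + Polynomial.C (b i) * Polynomial.X)) =
      (eval₂Hom Polynomial.C
      (fun i => Polynomial.C (f (a i)) + Polynomial.C (f (b i)) * Polynomial.X)).comp (map f) := by
    refine MvPolynomial.ringHom_ext (fun c => ?_) fun i => ?_
    · simp
    · simp
  exact congrArg (fun ψ : MvPolynomial σ S →+* Polynomial S' => ψ q) h1

end Hom

section Val

variable {G κ : Type} [Field G] [Field κ] {O : ValuationSubring G} {σ : Type}

lemma exists_lift (h : MvPolynomial σ G) (hO : ∀ m, h.coeff m ∈ O) :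
    ∃ h' : MvPolynomial σ O, map O.subtype h' = h := by
  classical
  refine ⟨∑ m ∈ h.support, monomial m (⟨h.coeff m, hO m⟩ : O), ?_⟩
  rw [map_sum]
  conv_rhs => rw [h.as_sum]
  refine Finset.sum_congr rfl fun m _ => ?_
  rw [map_monomial]
  rfl

/-- a nonzero polynomial is a multiple of a primitive one -/
lemma prim {ρ : O →+* κ} {h : MvPolynomial σ G} (h0 : h ≠ 0) :
    ∃ (u : G) (h' : MvPolynomial σ O), u ≠ 0 ∧ map O.subtype h' = C u * h ∧ map ρ h' ≠ 0 := by
  classical
  obtain ⟨m0, hm0, hmax⟩ := Finset.exists_max_image h.support (fun m => O.valuation (h.coeff m))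
    (support_nonempty.2 h0)
  have hc : h.coeff m0 ≠ 0 := mem_support_iff.1 hm0
  have hO : ∀ m, (C (h.coeff m0)⁻¹ * h).coeff m ∈ O := by
    intro m
    rw [coeff_C_mul, ← O.valuation_le_one_iff, map_mul, map_inv₀]
    by_cases hm : m ∈ h.support
    · rw [inv_mul_le_iff₀ (zero_lt_iff.2 ((Valuation.ne_zero_iff _).2 hc)), mul_one]
      exact hmax m hm
    · rw [notMem_support_iff.1 hm, map_zero, mul_zero]
      exact zero_le_one
  obtain ⟨h', hh'⟩ := exists_lift _ hO
  refine ⟨(h.coeff m0)⁻¹, h', inv_ne_zero hc, hh', fun h1 => ?_⟩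
  have h2 : h'.coeff m0 = 1 := by
    apply Subtype.ext
    have h3 := congrArg (coeff m0) hh'
    rw [coeff_map, coeff_C_mul, inv_mul_cancel₀ hc] at h3
    exact h3
  have h4 := congrArg (coeff m0) h1
  rw [coeff_map, h2, map_one, coeff_zero] at h4
  exact one_ne_zero h4

end Val

end Pool.Agent.H20.RD
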