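import Pool.Agent.H20.RD.Red

/-! The main theorem on the reduction of points. -/

set_option autoImplicit false
set_option linter.unusedSectionVars false

namespace Pool.Agent.H20.RD

open MvPolynomial
open Pool.Agent.H20.RG

variable {G κ : Type} [Field G] [IsAlgClosed G] [Field κ] [Infinite κ] {O : ValuationSubring G}

/-- the reduction is surjective and detects units -/
structure IsRed (ρ : O →+* κ) : Prop where
  surj : Function.Surjective ρ
  unit : ∀ x : O, ρ x ≠ 0 → IsUnit x

/-- a root with small value -/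
lemma root_lem {ρ : O →+* κ} (hρ : IsRed ρ) {f : Polynomial O} (h0 : ρ (f.eval 0) = 0)
    (h1 : ρ (f.eval 1) ≠ 0) : ∃ t : O, ρ t = 0 ∧ f.eval t = 0 := by
  classical
  set F : Polynomial G := f.map O.subtype with hF
  have hev : ∀ t : O, F.eval (t : G) = (f.eval t : O) := by
    intro t
    rw [hF, ← O.subtype_apply t, Polynomial.eval_map, Polynomial.eval₂_at_apply]
    rfl
  have hu1 : O.valuation (F.eval 1) = 1 := by
    have h2 := hev 1
    rw [OneMemClass.coe_one] at h2
    rw [h2]
    exact (O.valuation_eq_one_iff _).1 (hρ.unit _ h1)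
  have hu0 : O.valuation (F.eval 0) < 1 := by
    have h2 := hev 0
    rw [ZeroMemClass.coe_zero] at h2
    rw [h2]
    rw [← O.valuation_lt_one_iff, IsLocalRing.mem_maximalIdeal, mem_nonunits_iff]
    intro h3
    exact (h3.map ρ).ne_zero h0
  have hF0 : F ≠ 0 := by
    intro h2
    rw [h2, Polynomial.eval_zero, map_zero] at hu1
    exact zero_ne_one hu1
  by_contra hcon
  push Not at hcon
  have hroots : ∀ r ∈ F.roots, 1 ≤ O.valuation r := by
    intro r hr
    by_contra h2
    rw [not_le] at h2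
    have hrO : r ∈ O := (O.valuation_le_one_iff r).1 h2.le
    have h3 := hcon ⟨r, hrO⟩ (by
      by_contra h4
      have h5 := (O.valuation_eq_one_iff _).1 (hρ.unit _ h4)
      exact h2.ne h5)
    apply h3
    apply Subtype.ext
    have h4 := hev ⟨r, hrO⟩
    rw [← h4]
    exact (Polynomial.mem_roots hF0).1 hr
  have hsp := IsAlgClosed.splits F
  have he : ∀ x, F.eval x = F.leadingCoeff * (F.roots.map fun a => x - a).prod := fun x =>
    hsp.eval_eq_prod_roots x
  rw [he, map_mul] at hu1 hu0
  have h6 : O.valuation ((F.roots.map fun a => 1 - a).prod) ≤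
      O.valuation ((F.roots.map fun a => 0 - a).prod) := by
    rw [map_multiset_prod, map_multiset_prod, Multiset.map_map, Multiset.map_map]
    refine Multiset.prod_map_le_prod_map₀ _ _ (fun a _ => zero_le) fun a ha => ?_
    simp only [Function.comp_apply, zero_sub, Valuation.map_neg]
    refine (O.valuation.map_sub 1 a).trans ?_
    rw [map_one]
    exact max_le (hroots a ha) le_rfl
  have h7 := mul_le_mul_right h6 (O.valuation F.leadingCoeff)
  rw [hu1] at h7
  exact absurd hu0 (not_lt.2 h7)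

variable {ι : Type} [Fintype ι]

/-- limits of polynomial equations -/
def Lim (ρ : O →+* κ) (Q : Ideal (MvPolynomial ι G)) (y : ι → κ) : Prop :=
  ∀ q : MvPolynomial ι O, map O.subtype q ∈ Q → eval y (map ρ q) = 0

/-- reductions of points -/
def Pt (ρ : O →+* κ) (Q : Ideal (MvPolynomial ι G)) (y : ι → κ) : Prop :=
  ∃ z : ι → O, (∀ q ∈ Q, eval (fun i => (z i : G)) q = 0) ∧ ∀ i, ρ (z i) = y i

lemma Lim.smul {ρ : O →+* κ} {Q : Ideal (MvPolynomial ι G)} (hQ : HomI Q) {y : ι → κ}
    (h : Lim ρ Q y) (c : κ) : Lim ρ Q (fun i => c * y i) := by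
  intro q hq
  refine eval_smul_comps _ _ _ fun k => ?_
  rw [← hom_map_comp]
  refine h _ ?_
  rw [hom_map_comp]
  exact hQ _ hq k

lemma Pt.smul {ρ : O →+* κ} (hρ : IsRed ρ) {Q : Ideal (MvPolynomial ι G)} (hQ : HomI Q) {y : ι → κ}
    (h : Pt ρ Q y) (c : κ) : Pt ρ Q (fun i => c * y i) := by
  obtain ⟨z, hz, hzy⟩ := h
  obtain ⟨c', hc'⟩ := hρ.surj c
  refine ⟨fun i => c' * z i, fun q hq => ?_, fun i => ?_⟩
  · have h1 := eval_smul_comps q (c' : G) (fun i => (z i : G)) fun k => hz _ (hQ q hq k)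
    exact h1
  · rw [map_mul, hc', hzy]

lemma shr_X {S : Type} [CommRing S] (j i : ι) (d : ι → S) :
    shr j d (X i) = X i + C (d i) * X j := by
  unfold shr
  rw [aeval_X]

lemma shr_shr {S : Type} [CommRing S] (j : ι) {d : ι → S} (hd : d j = 0)
    (q : MvPolynomial ι S) : shr j (fun i => -d i) (shr j d q) = q := by
  have h1 : (shr j (fun i => -d i)).comp (shr j d) = AlgHom.id S (MvPolynomial ι S) := by
    refine MvPolynomial.algHom_ext fun i => ?_
    rw [AlgHom.comp_apply, shr_X, map_add, map_mul, shr_X, shr_X, algHom_C, algebraMap_eq,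
      AlgHom.id_apply, hd, neg_zero, C_0, zero_mul, add_zero, C_neg]
    ring
  exact congrArg (fun f : MvPolynomial ι S →ₐ[S] MvPolynomial ι S => f q) h1

/-- coordinate points -/
def pt0 [DecidableEq ι] {S : Type} [Zero S] [One S] (j : ι) : ι → S := fun i => if i = j then 1 else 0

lemma pt0_same [DecidableEq ι] {S : Type} [Zero S] [One S] (j : ι) : (pt0 j : ι → S) j = 1 :=
  if_pos rfl

lemma pt0_ne [DecidableEq ι] {S : Type} [Zero S] [One S] {i j : ι} (h : i ≠ j) :
    (pt0 j : ι → S) i = 0 := if_neg h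

/-- moving a point to a coordinate point: equations -/
lemma lim_shr [DecidableEq ι] {ρ : O →+* κ} {Q : Ideal (MvPolynomial ι G)} {y1 : ι → κ} {j : ι}
    (hy1j : y1 j = 1) {d : ι → O} (hdj : d j = 0) (hdi : ∀ i, i ≠ j → ρ (d i) = y1 i)
    (hL1 : Lim ρ Q y1) : Lim ρ (Q.comap (shr j fun i => -(d i : G))) (pt0 j) := by
  intro q hq
  have h1 := Ideal.mem_comap.1 hq
  have h2 : map O.subtype (shr j (fun i => -d i) q) =
      shr j (fun i => -(d i : G)) (map O.subtype q) := by
    rw [map_shr]
    have h9 : (fun i => O.subtype (-d i)) = fun i => -(d i : G) := by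
      funext i
      rw [map_neg]
      rfl
    rw [h9]
  rw [← h2] at h1
  have h3 := hL1 _ h1
  rw [map_shr, eval_shr] at h3
  have h4 : (fun i => y1 i + ρ (-d i) * y1 j) = (pt0 j : ι → κ) := by
    funext i
    by_cases hi : i = j
    · subst hi
      rw [pt0_same, map_neg, hdj, map_zero, neg_zero, zero_mul, add_zero, hy1j]
    · rw [pt0_ne hi, map_neg, hdi i hi, hy1j]
      ring
  rw [h4] at h3
  exact h3

/-- moving a point to a coordinate point: points -/
lemma pt_shr [DecidableEq ι] {ρ : O →+* κ} {Q : Ideal (MvPolynomial ι G)} {y1 : ι → κ} {j : ι}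
    (hy1j : y1 j = 1) {d : ι → O} (hdj : d j = 0) (hdi : ∀ i, i ≠ j → ρ (d i) = y1 i)
    (h : Pt ρ (Q.comap (shr j fun i => -(d i : G))) (pt0 j)) : Pt ρ Q y1 := by
  obtain ⟨z, hz, hzy⟩ := h
  refine ⟨fun i => z i + d i * z j, fun q hq => ?_, fun i => ?_⟩
  · have hdG : (fun i => (d i : G)) j = 0 := by
      change (d j : G) = 0
      rw [hdj]
      rfl
    have h1 : shr j (fun i => (d i : G)) q ∈ Q.comap (shr j fun i => -(d i : G)) := by
      rw [Ideal.mem_comap]
      have h8 := shr_shr (d := fun i => (d i : G)) j hdG q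
      have h7 : (fun i => -(fun i => (d i : G)) i) = fun i => -(d i : G) := rfl
      rw [h7] at h8
      rw [h8]
      exact hq
    have h2 := hz _ h1
    rw [eval_shr] at h2
    have h9 : (fun i => (((z i + d i * z j : O)) : G)) =
        fun i => (z i : G) + (d i : G) * (z j : G) := by
      funext i
      push_cast
      rfl
    rw [h9]
    exact h2
  · rw [map_add, map_mul, hzy, hzy, pt0_same, mul_one]
    by_cases hi : i = j
    · subst hi
      rw [pt0_same, hdj, map_zero, add_zero, hy1j]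
    · rw [pt0_ne hi, hdi i hi, zero_add]

/-- the case of a coordinate point implies the general case -/
lemma red_of_point [DecidableEq ι] {ρ : O →+* κ} (hρ : IsRed ρ)
    (H : ∀ (j : ι) (Q : Ideal (MvPolynomial ι G)), Q.IsPrime → HomI Q →
      Lim ρ Q (pt0 j) → Pt ρ Q (pt0 j))
    (Q : Ideal (MvPolynomial ι G)) (hQ : Q.IsPrime) (hh : HomI Q) {y : ι → κ} (hy : y ≠ 0)
    (hL : Lim ρ Q y) : Pt ρ Q y := by
  obtain ⟨j, hj⟩ : ∃ j, y j ≠ 0 := by
    by_contra h
    push Not at h
    exact hy (funext h)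
  have hL1 := hL.smul hh (y j)⁻¹
  have hy1j : (fun i => (y j)⁻¹ * y i) j = 1 := inv_mul_cancel₀ hj
  generalize hy1 : (fun i => (y j)⁻¹ * y i) = y1 at hL1 hy1j
  choose d0 hd0 using fun i => hρ.surj (y1 i)
  have hdj : (fun i => if i = j then 0 else d0 i) j = 0 := if_pos rfl
  have hdi : ∀ i, i ≠ j → ρ ((fun i => if i = j then 0 else d0 i) i) = y1 i := by
    intro i hi
    simp only
    rw [if_neg hi, hd0]
  generalize (fun i => if i = j then 0 else d0 i) = d at hdj hdi
  have h1 : (Q.comap (shr j fun i => -(d i : G))).IsPrime := hQ.comap _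
  have h2 : HomI (Q.comap (shr j fun i => -(d i : G))) :=
    hh.comap _ fun q k hq => hom_shr j _ q k hq
  have h3 := pt_shr hy1j hdj hdi (H j _ h1 h2 (lim_shr hy1j hdj hdi hL1))
  have h4 := h3.smul hρ hh (y j)
  have h5 : (fun i => y j * y1 i) = y := by
    funext i
    rw [← hy1]
    simp only
    field_simp
  rwa [h5] at h4

end Pool.Agent.H20.RD
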