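import Pool.Agent.H20.RD.Red2

/-! Reduction of points: the induction. -/

set_option autoImplicit false
set_option linter.unusedSectionVars false

namespace Pool.Agent.H20.RD

open MvPolynomial
open Pool.Agent.H20.RG

lemma eval_hom {σ S S' : Type} [CommRing S] [CommRing S'] (f : S →+* S') (z : σ → S)
    (q : MvPolynomial σ S) : eval (fun i => f (z i)) (map f q) = f (eval z q) := by
  have h1 : (eval fun i => f (z i)).comp (map f) = f.comp (eval z) := by
    refine MvPolynomial.ringHom_ext (fun c => ?_) fun i => ?_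
    · simp
    · simp
  exact congrArg (fun ψ : MvPolynomial σ S →+* S' => ψ q) h1

lemma exists_comp {σ S : Type} [CommRing S] {q : MvPolynomial σ S} (hq : q ≠ 0) :
    ∃ k, homogeneousComponent k q ≠ 0 := by
  by_contra h
  push Not at h
  apply hq
  rw [← sum_homogeneousComponent q]
  exact Finset.sum_eq_zero fun k _ => h k

lemma exists_eval_ne {σ κ : Type} [Field κ] [Infinite κ] {q : MvPolynomial σ κ} (hq : q ≠ 0) :
    ∃ w, eval w q ≠ 0 := by
  by_contra h
  push Not at h
  exact hq (MvPolynomial.funext fun w => by rw [h, map_zero])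

lemma eval_coe {G σ : Type} [Field G] {O : ValuationSubring G} (z : σ → O)
    (q : MvPolynomial σ O) : eval (fun i => (z i : G)) (map O.subtype q) = ((eval z q : O) : G) :=
  eval_hom O.subtype z q

variable {G κ : Type} [Field G] [IsAlgClosed G] [Field κ] [Infinite κ] {O : ValuationSubring G}
variable {ι : Type} [Fintype ι] [DecidableEq ι]

lemma mem_of_integral {t : G} (h : O.subtype.IsIntegralElem t) : t ∈ O := by
  have h1 : IsIntegral O t := h
  obtain ⟨y, hy⟩ := IsIntegrallyClosed.isIntegral_iff.1 h1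
  rw [← hy]
  exact y.2

lemma not_const (Q : Ideal (MvPolynomial ι G)) (hQ : Q.IsPrime) {c : G} (hc : c ≠ 0) : C c ∉ Q := by
  intro h
  apply hQ.ne_top
  rw [Ideal.eq_top_iff_one]
  have h1 := Q.mul_mem_left (C c⁻¹) h
  rwa [← C_mul, inv_mul_cancel₀ hc, C_1] at h1

lemma lim_lin {ρ : O →+* κ} {j : ι} {Q : Ideal (MvPolynomial ι G)} (hL : Lim ρ Q (pt0 j))
    {w : {i // i ≠ j} → O} {wb : {i // i ≠ j} → κ} (hw : ∀ i, ρ (w i) = wb i) :
    Lim ρ (Q.comap (lin j fun i => (w i : G))) (fun i => -wb i) := by
  intro q hq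
  have h1 := Ideal.mem_comap.1 hq
  have h2 : map O.subtype (lin j w q) = lin j (fun i => (w i : G)) (map O.subtype q) := by
    rw [map_lin]
    rfl
  rw [← h2] at h1
  have h3 := hL _ h1
  rw [map_lin, eval_lin] at h3
  have h4 : (fun i : {i // i ≠ j} => (pt0 j : ι → κ) i.1 - ρ (w i) * (pt0 j : ι → κ) j) =
      fun i => -wb i := by
    funext i
    rw [pt0_ne i.2, pt0_same, hw]
    ring
  rw [h4] at h3
  exact h3

lemma red_caseA {ρ : O →+* κ} (hρ : IsRed ρ) (j : ι) (Q : Ideal (MvPolynomial ι G))
    (hQ : Q.IsPrime) (hh : HomI Q)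
    (IH : ∀ (Q' : Ideal (MvPolynomial {i // i ≠ j} G)), Q'.IsPrime → HomI Q' →
      ∀ y' : {i // i ≠ j} → κ, y' ≠ 0 → Lim ρ Q' y' → Pt ρ Q' y')
    (hL : Lim ρ Q (pt0 j)) {r : MvPolynomial {i // i ≠ j} G} (hr0 : r ≠ 0)
    (hr : rename (fun i : {i // i ≠ j} => i.1) r ∈ Q) : Pt ρ Q (pt0 j) := by
  obtain ⟨k, hk⟩ := exists_comp hr0
  have hh0 : (homogeneousComponent k r).IsHomogeneous k := homogeneousComponent_isHomogeneous k r
  have hQ0 : rename (fun i : {i // i ≠ j} => i.1) (homogeneousComponent k r) ∈ Q := by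
    rw [← hom_rename]
    exact hh _ hr k
  have hk0 : k ≠ 0 := by
    rintro rfl
    rw [homogeneousComponent_zero] at hk hQ0
    rw [rename_C] at hQ0
    exact not_const Q hQ (fun h => hk (by rw [h, C_0])) hQ0
  generalize homogeneousComponent k r = h0 at hk hh0 hQ0
  obtain ⟨u, h', hu, hmap, hred⟩ := prim (ρ := ρ) hk
  have hhom' : h'.IsHomogeneous k := by
    refine hom_of_map (f := O.subtype) Subtype.val_injective ?_
    rw [hmap]
    have := (isHomogeneous_C {i // i ≠ j} u).mul hh0
    rwa [zero_add] at this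
  have hredhom : (map ρ h').IsHomogeneous k := hhom'.map ρ
  obtain ⟨wb, hwb⟩ := exists_eval_ne hred
  choose w hw using fun i => hρ.surj (wb i)
  have hwfun : (fun i => ρ (w i)) = wb := funext hw
  have hev : eval wb (map ρ h') = ρ (eval w h') := by
    rw [← hwfun, eval_hom]
  have hunit : IsUnit (eval w h') := hρ.unit _ (by rwa [← hev])
  have hwb0 : wb ≠ 0 := by
    intro h
    have h1 := eval_smul_hom hredhom 0 wb
    rw [zero_pow hk0, zero_mul] at h1
    have h2 : (fun i => 0 * wb i) = wb := by
      funext i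
      rw [h, Pi.zero_apply, mul_zero]
    rw [h2] at h1
    exact hwb h1
  have hy' : (fun i => -wb i) ≠ 0 := by
    intro h
    apply hwb0
    funext i
    exact neg_eq_zero.1 (congrFun h i)
  obtain ⟨z, hz, hzy⟩ := IH (Q.comap (lin j fun i => (w i : G))) (hQ.comap _)
    (hh.comap _ fun q k hq => hom_lin j _ hq) _ hy' (lim_lin hL hw)
  have hmapev : ∀ x : {i // i ≠ j} → G, eval x (map O.subtype h') = u * eval x h0 := by
    intro x
    rw [hmap, map_mul, eval_C]
  have hwG : eval (fun i => (w i : G)) h0 ≠ 0 := by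
    intro h
    have h1 := hmapev fun i => (w i : G)
    rw [h, mul_zero] at h1
    have h2 := eval_coe w h'
    rw [h1] at h2
    exact hunit.ne_zero (Subtype.ext h2.symm)
  obtain ⟨t, ht⟩ := lift_point j (fun i => (w i : G)) Q hh0 hwG hQ0 (z' := fun i => (z i : G))
    fun q hq => hz q (Ideal.mem_comap.2 hq)
  -- the equation for `t`
  have hteq : eval (fun i => (z i : G) + (w i : G) * t) h0 = 0 := by
    have h1 := ht _ hQ0
    rw [eval_rename] at h1
    have h2 : ((fun i => if h : i = j then t else (z ⟨i, h⟩ : G) + (w ⟨i, h⟩ : G) * t) ∘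
        fun i : {i // i ≠ j} => i.1) = fun i => (z i : G) + (w i : G) * t := by
      funext i
      rw [Function.comp_apply, dif_neg i.2]
    rwa [h2] at h1
  have htO : t ∈ O := by
    refine mem_of_integral (integral_of O.subtype (lineP_top z w hhom').1 hunit
      (lineP_top z w hhom').2 ?_)
    rw [← Polynomial.eval_map, map_lineP, eval_lineP]
    have h1 := hmapev fun i => (z i : G) + (w i : G) * t
    rw [hteq, mul_zero] at h1
    exact h1
  obtain ⟨t', rfl⟩ : ∃ t' : O, (t' : G) = t := ⟨⟨t, htO⟩, rfl⟩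
  have hO : eval (fun i => z i + w i * t') h' = 0 := by
    have h1 := hmapev fun i => (z i : G) + (w i : G) * (t' : G)
    rw [hteq, mul_zero] at h1
    have h2 : (fun i => (((fun i => z i + w i * t') i : O) : G)) =
        fun i => (z i : G) + (w i : G) * (t' : G) := by
      funext i
      push_cast
      rfl
    have h3 := eval_coe (fun i => z i + w i * t') h'
    rw [h2, h1] at h3
    exact Subtype.ext h3.symm
  have hs : ρ t' = 1 := by
    have h1 := congrArg ρ hO
    rw [map_zero, ← eval_hom] at h1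
    have h2 : (fun i => ρ (z i + w i * t')) = fun i => (ρ t' - 1) * wb i := by
      funext i
      rw [map_add, map_mul, hzy, hw]
      ring
    rw [h2, eval_smul_hom hredhom] at h1
    have h3 := (mul_eq_zero.1 h1).resolve_right hwb
    exact sub_eq_zero.1 (pow_eq_zero_iff hk0 |>.1 h3)
  refine ⟨fun i => if h : i = j then t' else z ⟨i, h⟩ + w ⟨i, h⟩ * t', fun q hq => ?_, fun i => ?_⟩
  · have h1 := ht q hq
    have h2 : (fun i => (((if h : i = j then t' else z ⟨i, h⟩ + w ⟨i, h⟩ * t' : O)) : G)) =
        fun i => if h : i = j then (t' : G) else (z ⟨i, h⟩ : G) + (w ⟨i, h⟩ : G) * (t' : G) := by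
      funext i
      by_cases h : i = j
      · rw [dif_pos h, dif_pos h]
      · rw [dif_neg h, dif_neg h]
        push_cast
        rfl
    rw [h2]
    exact h1
  · by_cases h : i = j
    · simp only [dif_pos h]
      rw [h, hs, pt0_same]
    · simp only [dif_neg h]
      rw [map_add, map_mul, hs, hzy, hw, pt0_ne h]
      ring

lemma red_caseB {ρ : O →+* κ} (hρ : IsRed ρ) (j : ι) (Q : Ideal (MvPolynomial ι G))
    (hQ : Q.IsPrime) (hh : HomI Q) (hL : Lim ρ Q (pt0 j))
    (hind : Indep Q (fun i : {i // i ≠ j} => i.1)) : Pt ρ Q (pt0 j) := by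
  let e : Option {i // i ≠ j} → ι := fun o => o.elim j fun i => i.1
  let e' : ι → Option {i // i ≠ j} := fun i => if h : i = j then none else some ⟨i, h⟩
  have hee : e ∘ e' = id := by
    funext i
    simp only [e, e', Function.comp_apply, id]
    by_cases h : i = j
    · rw [dif_pos h]
      exact h.symm
    · rw [dif_neg h]
      rfl
  have hee' : ∀ o, e' (e o) = o := by
    intro o
    cases o with
    | none => exact dif_pos rfl
    | some i => exact dif_neg i.2
  have hback : ∀ q : MvPolynomial ι G, rename e (rename e' q) = q := by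
    intro q
    rw [rename_rename, hee, rename_id_apply]
  by_cases hI : Indep Q e
  · refine ⟨pt0 j, fun q hq => ?_, fun i => ?_⟩
    · have h1 := hI (rename e' q) (by rwa [hback])
      have h2 : q = 0 := by rw [← hback q, h1, map_zero]
      rw [h2, map_zero]
    · by_cases h : i = j
      · rw [h, pt0_same, pt0_same, map_one]
      · rw [pt0_ne h, pt0_ne h, map_zero]
  · obtain ⟨g, hg, hgQ⟩ := exists_relation Q e hind hI
    have hg1Q : rename e g ∈ Q := (hgQ g).2 dvd_rfl
    have hdiv : ∀ q ∈ Q, rename e g ∣ q := by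
      intro q hq
      obtain ⟨c, hc⟩ := (hgQ (rename e' q)).1 (by rwa [hback])
      exact ⟨rename e c, by rw [← map_mul, ← hc, hback]⟩
    have hg10 : rename e g ≠ 0 := by
      intro h
      have h1 := rename_injective (R := G) e (Function.LeftInverse.injective hee')
      exact hg.ne_zero (h1 (by rw [h, map_zero]))
    generalize rename e g = g1 at hg1Q hdiv hg10
    obtain ⟨k, hk⟩ := exists_comp hg10
    have hhk : (homogeneousComponent k g1).IsHomogeneous k := homogeneousComponent_isHomogeneous k g1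
    have hkQ := hh _ hg1Q k
    have hkle : k ≤ g1.totalDegree := by
      by_contra h
      exact hk (homogeneousComponent_eq_zero k g1 (not_le.1 h))
    obtain ⟨c, hc⟩ := hdiv _ hkQ
    generalize homogeneousComponent k g1 = hg2 at hk hhk hkQ hc
    have hc0 : c ≠ 0 := by
      rintro rfl
      exact hk (by rw [hc, mul_zero])
    have hdeg : c.totalDegree = 0 := by
      have h1 := hhk.totalDegree hk
      rw [hc, totalDegree_mul_of_isDomain hg10 hc0] at h1
      omega
    rw [totalDegree_eq_zero_iff_eq_C] at hdeg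
    have hcc : coeff 0 c ≠ 0 := by
      intro h
      rw [h, C_0] at hdeg
      exact hc0 hdeg
    have hvan : ∀ z : ι → G, eval z hg2 = 0 → ∀ q ∈ Q, eval z q = 0 := by
      intro z hz q hq
      obtain ⟨b, rfl⟩ := hdiv q hq
      rw [hc, hdeg, map_mul, eval_C] at hz
      rw [map_mul, (mul_eq_zero.1 hz).resolve_right hcc, zero_mul]
    obtain ⟨u, g', hu, hmap, hred⟩ := prim (ρ := ρ) hk
    have hgQ' : map O.subtype g' ∈ Q := by
      rw [hmap]
      exact Q.mul_mem_left _ hkQ
    obtain ⟨wb, hwb⟩ := exists_eval_ne hred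
    choose w hw using fun i => hρ.surj (wb i)
    have hwfun : (fun i => ρ (w i)) = wb := funext hw
    have hpt : (fun i => ρ ((pt0 j : ι → O) i)) = (pt0 j : ι → κ) := by
      funext i
      by_cases h : i = j
      · rw [h, pt0_same, pt0_same, map_one]
      · rw [pt0_ne h, pt0_ne h, map_zero]
    obtain ⟨t, ht, ht0⟩ := root_lem hρ
      (f := lineP (pt0 j : ι → O) (fun i => w i - (pt0 j : ι → O) i) g') (by
        rw [eval_lineP]
        have h1 : (fun i => (pt0 j : ι → O) i + (w i - (pt0 j : ι → O) i) * 0) = pt0 j := by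
          funext i
          ring
        rw [h1, ← eval_hom, hpt]
        exact hL _ hgQ') (by
        rw [eval_lineP]
        have h1 : (fun i => (pt0 j : ι → O) i + (w i - (pt0 j : ι → O) i) * 1) = w := by
          funext i
          ring
        rw [h1, ← eval_hom, hwfun]
        exact hwb)
    rw [eval_lineP] at ht0
    refine ⟨fun i => (pt0 j : ι → O) i + (w i - (pt0 j : ι → O) i) * t, ?_, fun i => ?_⟩
    · refine hvan _ ?_
      have h1 := eval_hom O.subtype (fun i => (pt0 j : ι → O) i + (w i - (pt0 j : ι → O) i) * t) g'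
      rw [ht0, map_zero, hmap, map_mul, eval_C] at h1
      exact (mul_eq_zero.1 h1).resolve_left hu
    · rw [map_add, map_mul, ht, mul_zero, add_zero]
      exact congrFun hpt i

/-- **Points reduce onto limits.** -/
theorem red {ρ : O →+* κ} (hρ : IsRed ρ) : ∀ (n : ℕ) (ι : Type) [Fintype ι] [DecidableEq ι],
    Fintype.card ι = n → ∀ Q : Ideal (MvPolynomial ι G), Q.IsPrime → HomI Q → ∀ y : ι → κ, y ≠ 0 →
      Lim ρ Q y → Pt ρ Q y := by
  intro n
  induction n using Nat.strong_induction_on with
  | _ n IH =>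
    intro ι _ _ hn Q hQ hh y hy hL
    refine red_of_point hρ (fun j Q hQ hh hL => ?_) Q hQ hh hy hL
    by_cases hind : Indep Q (fun i : {i // i ≠ j} => i.1)
    · exact red_caseB hρ j Q hQ hh hL hind
    · unfold Indep at hind
      push Not at hind
      obtain ⟨r, hr, hr0⟩ := hind
      refine red_caseA hρ j Q hQ hh (fun Q' hQ' hh' y' hy' hL' => ?_) hL hr0 hr
      refine IH (Fintype.card {i // i ≠ j}) ?_ _ rfl Q' hQ' hh' y' hy' hL'
      rw [← hn]
      exact Fintype.card_subtype_lt (x := j) fun h => h rfl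

end Pool.Agent.H20.RD
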