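import Pool.Agent.H20.RG.Main

/-! Polynomials on lines, and lifting of points of linear projections. -/

set_option autoImplicit false
set_option linter.unusedSectionVars false

namespace Pool.Agent.H20.RD

open MvPolynomial

section Line

variable {σ S : Type} [Fintype σ] [CommRing S]

/-- the polynomial on a line -/
noncomputable def lineP (a b : σ → S) (q : MvPolynomial σ S) : Polynomial S :=
  eval₂ Polynomial.C (fun i => Polynomial.C (a i) + Polynomial.C (b i) * Polynomial.X) q

lemma eval_lineP (a b : σ → S) (q : MvPolynomial σ S) (t : S) :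
    (lineP a b q).eval t = eval (fun i => a i + b i * t) q := by
  unfold lineP
  have h1 : (Polynomial.evalRingHom t).comp (eval₂Hom Polynomial.C
      (fun i => Polynomial.C (a i) + Polynomial.C (b i) * Polynomial.X)) =
      eval (fun i => a i + b i * t) := by
    refine MvPolynomial.ringHom_ext (fun c => ?_) fun i => ?_
    · simp
    · simp
  exact congrArg (fun ψ : MvPolynomial σ S →+* S => ψ q) h1

lemma prod_top (a b : σ → S) (m : σ → ℕ) (s : Finset σ) :
    (∏ i ∈ s, (Polynomial.C (a i) + Polynomial.C (b i) * Polynomial.X) ^ m i).natDegree ≤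
        ∑ i ∈ s, m i ∧
      (∏ i ∈ s, (Polynomial.C (a i) + Polynomial.C (b i) * Polynomial.X) ^ m i).coeff
        (∑ i ∈ s, m i) = ∏ i ∈ s, b i ^ m i := by
  classical
  induction s using Finset.induction_on with
  | empty => simp
  | insert i s hi ih =>
    rw [Finset.prod_insert hi, Finset.sum_insert hi, Finset.prod_insert hi]
    have h1 : (Polynomial.C (a i) + Polynomial.C (b i) * Polynomial.X).natDegree ≤ 1 := by
      refine (Polynomial.natDegree_add_le _ _).trans (max_le ?_ ?_)
      · rw [Polynomial.natDegree_C]
        exact zero_le_one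
      · exact (Polynomial.natDegree_C_mul_le _ _).trans Polynomial.natDegree_X_le
    have h2 : ((Polynomial.C (a i) + Polynomial.C (b i) * Polynomial.X) ^ m i).natDegree ≤ m i := by
      refine Polynomial.natDegree_pow_le.trans ?_
      calc m i * _ ≤ m i * 1 := Nat.mul_le_mul_left _ h1
        _ = m i := mul_one _
    have h3 : ((Polynomial.C (a i) + Polynomial.C (b i) * Polynomial.X) ^ m i).coeff (m i) =
        b i ^ m i := by
      have := Polynomial.coeff_pow_of_natDegree_le (m := m i) h1
      rw [mul_one] at this
      rw [this]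
      simp
    constructor
    · exact Polynomial.natDegree_mul_le.trans (add_le_add h2 ih.1)
    · rw [Polynomial.coeff_mul_add_eq_of_natDegree_le h2 ih.1, h3, ih.2]

lemma lineP_top (a b : σ → S) {q : MvPolynomial σ S} {k : ℕ} (hq : q.IsHomogeneous k) :
    (lineP a b q).natDegree ≤ k ∧ (lineP a b q).coeff k = eval b q := by
  classical
  have h1 : lineP a b q = ∑ m ∈ q.support, Polynomial.C (q.coeff m) *
      ∏ i, (Polynomial.C (a i) + Polynomial.C (b i) * Polynomial.X) ^ m i := by
    unfold lineP
    rw [eval₂_eq']
  have h2 : ∀ m ∈ q.support, ∑ i, m i = k := by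
    intro m hm
    have := hq (mem_support_iff.1 hm)
    rw [← this, Finsupp.weight_apply, Finsupp.sum_fintype _ _ (by simp)]
    simp
  rw [h1]
  constructor
  · refine Polynomial.natDegree_sum_le_of_forall_le _ _ fun m hm => ?_
    refine (Polynomial.natDegree_C_mul_le _ _).trans ?_
    rw [← h2 m hm]
    exact (prod_top a b m Finset.univ).1
  · rw [Polynomial.finsetSum_coeff, eval_eq']
    refine Finset.sum_congr rfl fun m hm => ?_
    rw [Polynomial.coeff_C_mul]
    congr 1
    have := (prod_top a b m Finset.univ).2
    rwa [h2 m hm] at this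

lemma integral_of {A : Type} [CommRing A] (f : S →+* A) {x : A} {P : Polynomial S} {k : ℕ}
    (hP : P.natDegree ≤ k) {u : S} (hu : IsUnit u) (hk : P.coeff k = u)
    (h0 : P.eval₂ f x = 0) : f.IsIntegralElem x := by
  obtain ⟨v, hv⟩ := hu.exists_left_inv
  refine ⟨Polynomial.C v * P, ?_, ?_⟩
  · refine Polynomial.monic_of_natDegree_le_of_coeff_eq_one k
      ((Polynomial.natDegree_C_mul_le _ _).trans hP) ?_
    rw [Polynomial.coeff_C_mul, hk, hv]
  · rw [Polynomial.eval₂_mul, h0, mul_zero]

end Line

end Pool.Agent.H20.RD
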